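import Pool.Agent.Run7.h54.Basic

/-! From torsion-free barely transitive actions to the standing hypotheses. -/

open scoped Pointwise

namespace Run7.h54

variable {G Ω : Type*} [Group G] [MulAction G Ω]

theorem relIndex_stabilizer (K : Subgroup G) (x : Ω) :
    (MulAction.stabilizer G x).relIndex K = (MulAction.orbit K x).ncard := by
  have h : (MulAction.stabilizer G x).subgroupOf K = MulAction.stabilizer K x := by
    ext y
    rfl
  rw [Subgroup.relIndex, h, MulAction.index_stabilizer]

theorem big_stabilizer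
    (hbt : ∀ K : Subgroup G, K ≠ ⊤ → ∀ x : Ω, (MulAction.orbit K x).Finite) (x : Ω) :
    Big (MulAction.stabilizer G x) := by
  intro K hK
  rw [relIndex_stabilizer]
  have h := Set.ncard_pos (hbt K hK x)
  exact (h.2 ⟨x, MulAction.mem_orbit_self x⟩).ne'

theorem hyp_of_bt [FaithfulSMul G Ω] [MulAction.IsPretransitive G Ω] [Infinite Ω]
    (hbt : ∀ K : Subgroup G, K ≠ ⊤ → ∀ x : Ω, (MulAction.orbit K x).Finite)
    (htf : ∀ g : G, IsOfFinOrder g → g = 1) : Hyp G := by
  have hsimple : ∀ N : Subgroup G, N.Normal → N = ⊥ ∨ N = ⊤ := by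
    intro N hN
    by_cases htop : N = ⊤
    · exact Or.inr htop
    · left
      rw [eq_bot_iff]
      intro a ha
      obtain ⟨x₀⟩ : Nonempty Ω := inferInstance
      set n := (MulAction.stabilizer G x₀).relIndex N with hn
      have hn0 : n ≠ 0 := big_stabilizer hbt x₀ N htop
      have hall : ∀ y : Ω, (MulAction.stabilizer G y).relIndex N = n := by
        intro y
        obtain ⟨g, rfl⟩ := MulAction.exists_smul_eq G x₀ y
        have h1 : MulAction.stabilizer G (g • x₀) = MulAut.conj g • MulAction.stabilizer G x₀ :=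
          MulAction.stabilizer_smul_eq_stabilizer_map_conj g x₀
        have h2 : MulAut.conj g • N = N := Subgroup.Normal.conj_smul_eq_self g N
        rw [h1, hn]
        conv_lhs => rw [← h2]
        exact Subgroup.relIndex_pointwise_smul _ _ _
      have hfix : ∀ y : Ω, a ^ n.factorial • y = y := by
        intro y
        have h1 : (MulAction.stabilizer G y).relIndex N ≠ 0 := by rw [hall]; exact hn0
        have h2 := Subgroup.pow_mem_of_relIndex_ne_zero_of_dvd h1 ha (n := n.factorial)
          (fun m h2 h3 => Nat.dvd_factorial h2 (by rwa [hall] at h3))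
        exact h2.1
      have h3 : a ^ n.factorial = 1 := by
        apply FaithfulSMul.eq_of_smul_eq_smul (M := G) (α := Ω)
        intro y
        rw [hfix, one_smul]
      exact Subgroup.mem_bot.2
        (htf a (isOfFinOrder_iff_pow_eq_one.2 ⟨_, Nat.factorial_pos n, h3⟩))
  refine ⟨hsimple, fun g n hn hg => htf g (isOfFinOrder_iff_pow_eq_one.2 ⟨n, hn, hg⟩), ?_⟩
  by_contra hcon
  push Not at hcon
  have hnormal : ∀ N : Subgroup G, N.Normal := fun N => ⟨fun n hn g => by
    rw [hcon g n]
    simpa using hn⟩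
  obtain ⟨g, hg⟩ : ∃ g : G, g ≠ 1 := by
    by_contra h
    push Not at h
    obtain ⟨x, y, hxy⟩ := exists_pair_ne Ω
    obtain ⟨g, hg⟩ := MulAction.exists_smul_eq G x y
    rw [h g, one_smul] at hg
    exact hxy hg
  rcases hsimple (Subgroup.zpowers (g ^ 2)) (hnormal _) with h | h
  · rw [Subgroup.zpowers_eq_bot] at h
    exact hg (htf g (isOfFinOrder_iff_pow_eq_one.2 ⟨2, by norm_num, h⟩))
  · have h1 : g ∈ Subgroup.zpowers (g ^ 2) := by rw [h]; trivial
    obtain ⟨k, hk⟩ := Subgroup.mem_zpowers_iff.1 h1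
    apply hg
    apply htf
    rw [isOfFinOrder_iff_zpow_eq_one]
    refine ⟨2 * k - 1, by omega, ?_⟩
    rw [zpow_sub, zpow_mul, zpow_one]
    have h2 : g ^ (2 : ℤ) = g ^ 2 := by norm_cast
    rw [h2, hk, mul_inv_cancel]

end Run7.h54
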