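import Pool.Agent.Run7.h54.Basic

/-! Lemmas on nilpotent groups. -/

open scoped Pointwise commutatorElement

namespace Run7.h54

section commute

variable {G : Type*} [Group G]

theorem pow_commutator_left {x g : G} (h : Commute x ⁅x, g⁆) (l : ℕ) :
    ⁅x ^ l, g⁆ = ⁅x, g⁆ ^ l := by
  induction l with
  | zero => simp
  | succ l ih =>
    rw [pow_succ', pow_succ, ← ih]
    have h1 : Commute x ⁅x ^ l, g⁆ := by rw [ih]; exact h.pow_right l
    have h2 : x * ⁅x ^ l, g⁆ * x⁻¹ = ⁅x ^ l, g⁆ := by
      rw [h1.eq]; group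
    calc ⁅x * x ^ l, g⁆ = (x * ⁅x ^ l, g⁆ * x⁻¹) * ⁅x, g⁆ := by
          simp only [commutatorElement_def]; group
      _ = _ := by rw [h2]

theorem pow_commutator_right {x g : G} (h : Commute g ⁅x, g⁆) (l : ℕ) :
    ⁅x, g ^ l⁆ = ⁅x, g⁆ ^ l := by
  have h1 : Commute g ⁅g, x⁆ := by
    rw [← commutatorElement_inv]; exact h.inv_right
  have h2 := pow_commutator_left h1 l
  rw [← commutatorElement_inv, h2, ← commutatorElement_inv, inv_pow, inv_inv]

end commute

section sup

variable {G : Type*} [Group G]

theorem commutator_le_iff_map {A C D : Subgroup G} [D.Normal] :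
    ⁅A, C⁆ ≤ D ↔ A.map (QuotientGroup.mk' D) ≤
      Subgroup.centralizer (C.map (QuotientGroup.mk' D) : Set (G ⧸ D)) := by
  rw [← Subgroup.commutator_eq_bot_iff_le_centralizer, ← Subgroup.map_commutator,
    Subgroup.map_eq_bot_iff, QuotientGroup.ker_mk']

theorem sup_commutator_le {A B C D : Subgroup G} [D.Normal] (h1 : ⁅A, C⁆ ≤ D)
    (h2 : ⁅B, C⁆ ≤ D) : ⁅A ⊔ B, C⁆ ≤ D := by
  rw [commutator_le_iff_map] at *
  rw [Subgroup.map_sup]
  exact sup_le h1 h2

theorem sup_commutator_sup_le {A B A' B' D : Subgroup G} [D.Normal] (h1 : ⁅A, A'⁆ ≤ D)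
    (h2 : ⁅B, A'⁆ ≤ D) (h3 : ⁅A, B'⁆ ≤ D) (h4 : ⁅B, B'⁆ ≤ D) : ⁅A ⊔ B, A' ⊔ B'⁆ ≤ D := by
  apply sup_commutator_le
  · rw [Subgroup.commutator_comm]
    apply sup_commutator_le
    · rwa [Subgroup.commutator_comm]
    · rwa [Subgroup.commutator_comm]
  · rw [Subgroup.commutator_comm]
    apply sup_commutator_le
    · rwa [Subgroup.commutator_comm]
    · rwa [Subgroup.commutator_comm]

theorem lcs_normal (N : Subgroup G) [hN : N.Normal] (n : ℕ) : (N.lowerCentralSeries n).Normal := by
  induction n with
  | zero => simpa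
  | succ n ih => rw [Subgroup.lowerCentralSeries_succ]; infer_instance

/-- Fitting, in the case that one factor is abelian. -/
theorem fitting_abelian (N A : Subgroup G) [N.Normal] [A.Normal]
    (hN : ∃ n, N.lowerCentralSeries n = ⊥) (hA : ⁅A, A⁆ = ⊥) :
    ∃ n, (N ⊔ A).lowerCentralSeries n = ⊥ := by
  have hnorm : ∀ n, (N.lowerCentralSeries n).Normal := lcs_normal N
  have key : ∀ n, (N ⊔ A).lowerCentralSeries (n + 1) ≤
      N.lowerCentralSeries (n + 1) ⊔ (A ⊓ N.lowerCentralSeries n) := by
    intro n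
    induction n with
    | zero =>
      have := hnorm 0
      have := hnorm 1
      rw [Subgroup.lowerCentralSeries_succ, Subgroup.lowerCentralSeries_zero]
      apply sup_commutator_sup_le
      · exact le_sup_left
      · refine le_trans ?_ le_sup_right
        exact le_inf (Subgroup.commutator_le_left _ _) (Subgroup.commutator_le_right _ _)
      · refine le_trans ?_ le_sup_right
        exact le_inf (Subgroup.commutator_le_right _ _) (Subgroup.commutator_le_left _ _)
      · rw [hA]; exact bot_le
    | succ n ih =>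
      have := hnorm n
      have := hnorm (n + 1)
      have := hnorm (n + 1 + 1)
      rw [Subgroup.lowerCentralSeries_succ]
      refine le_trans (Subgroup.commutator_mono ih le_rfl) ?_
      apply sup_commutator_sup_le
      · exact le_sup_left
      · refine le_trans ?_ le_sup_right
        apply le_inf
        · exact le_trans (Subgroup.commutator_mono inf_le_left le_rfl)
            (Subgroup.commutator_le_left _ _)
        · exact Subgroup.commutator_mono inf_le_right le_rfl
      · refine le_trans ?_ le_sup_right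
        exact le_inf (Subgroup.commutator_le_right _ _) (Subgroup.commutator_le_left _ _)
      · refine le_trans (Subgroup.commutator_mono inf_le_left le_rfl) ?_
        rw [hA]; exact bot_le
  obtain ⟨n, hn⟩ := hN
  refine ⟨n + 1, ?_⟩
  rw [eq_bot_iff]
  refine le_trans (key n) ?_
  have h2 : N.lowerCentralSeries (n + 1) = ⊥ := by
    rw [eq_bot_iff, ← hn]
    exact N.lowerCentralSeries_antitone (Nat.le_succ n)
  rw [h2, hn]
  simp

theorem fitting_finset {ι : Type*} (B : ι → Subgroup G) (hB : ∀ i, (B i).Normal)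
    (hA : ∀ i, ⁅B i, B i⁆ = ⊥) (s : Finset ι) :
    ∃ n, (⨆ i ∈ s, B i).lowerCentralSeries n = ⊥ := by
  classical
  induction s using Finset.induction_on with
  | empty => exact ⟨0, by simp⟩
  | insert a s ha ih =>
    rw [Finset.iSup_insert, sup_comm]
    have h1 : (⨆ i ∈ s, B i).Normal := Subgroup.biSup_normal _ _ fun i _ => hB i
    have h2 := hB a
    exact fitting_abelian _ _ ih (hA a)

/-- A finite family of abelian subgroups of `J`, each normalised by `J`, generates a nilpotent
group. -/
theorem nilpotent_of_family {ι : Type*} (J : Subgroup G) (B : ι → Subgroup G)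
    (hBJ : ∀ i, B i ≤ J) (hn : ∀ i, ∀ j ∈ J, ∀ b ∈ B i, j * b * j⁻¹ ∈ B i)
    (hA : ∀ i, ∀ a ∈ B i, ∀ b ∈ B i, a * b = b * a) (s : Finset ι) :
    Group.IsNilpotent (⨆ i ∈ s, B i : Subgroup G) := by
  rw [Subgroup.isNilpotent_iff_lowerCentralSeries]
  obtain ⟨n, hn⟩ := fitting_finset (fun i => (B i).subgroupOf J)
    (fun i => ⟨fun b hb j => by
      rw [Subgroup.mem_subgroupOf] at hb ⊢
      simpa using hn i j j.2 b hb⟩)
    (fun i => by
      rw [Subgroup.commutator_eq_bot_iff_le_centralizer]
      intro a ha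
      rw [Subgroup.mem_centralizer_iff]
      intro b hb
      apply Subtype.ext
      exact hA i b hb a ha) s
  refine ⟨n, ?_⟩
  have h1 : (⨆ i ∈ s, (B i).subgroupOf J).map J.subtype = ⨆ i ∈ s, B i := by
    simp only [Subgroup.map_iSup]
    congr 1
    funext i
    congr 1
    funext _
    exact Subgroup.map_subgroupOf_eq_of_le (hBJ i)
  rw [← h1, ← Subgroup.map_lowerCentralSeries, hn, Subgroup.map_bot]

end sup

section isolated

theorem isolated_upperCentralSeries {W : Type*} [Group W]
    (tf : ∀ (g : W) (n : ℕ), 0 < n → g ^ n = 1 → g = 1) {c : ℕ}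
    (hc : Subgroup.upperCentralSeries W c = ⊤) (i : ℕ) :
    ∀ (x : W) (l : ℕ), 0 < l → x ^ l ∈ Subgroup.upperCentralSeries W i →
      x ∈ Subgroup.upperCentralSeries W i := by
  induction i with
  | zero =>
    intro x l hl hx
    rw [Subgroup.upperCentralSeries_zero, Subgroup.mem_bot] at hx ⊢
    exact tf x l hl hx
  | succ i ih =>
    intro x l hl hx
    have key : ∀ j, ∀ g ∈ Subgroup.upperCentralSeries W j,
        ⁅x, g⁆ ∈ Subgroup.upperCentralSeries W i := by
      intro j
      induction j with
      | zero =>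
        intro g hg
        rw [Subgroup.upperCentralSeries_zero, Subgroup.mem_bot] at hg
        rw [hg, commutatorElement_one_right]
        exact one_mem _
      | succ j ihj =>
        intro g hg
        have h1 : ⁅x, g⁆ ∈ Subgroup.upperCentralSeries W j := by
          rw [← commutatorElement_inv]
          exact inv_mem (Subgroup.mem_upperCentralSeries_succ_iff.1 hg x)
        have h2 := ihj _ h1
        apply ih _ l hl
        set N := Subgroup.upperCentralSeries W i with hN
        have hx2 : ⁅x ^ l, g⁆ ∈ N := Subgroup.mem_upperCentralSeries_succ_iff.1 hx g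
        rw [← QuotientGroup.eq_one_iff] at h2 hx2 ⊢
        have e : ∀ a b : W, ((⁅a, b⁆ : W) : W ⧸ N) = ⁅(a : W ⧸ N), (b : W ⧸ N)⁆ := fun a b =>
          map_commutatorElement (QuotientGroup.mk' N) a b
        have h3 : Commute (x : W ⧸ N) ⁅(x : W ⧸ N), (g : W ⧸ N)⁆ := by
          rw [e, e] at h2
          exact commutatorElement_eq_one_iff_commute.1 h2
        have h4 := pow_commutator_left h3 l
        rw [e, QuotientGroup.mk_pow] at hx2
        rw [QuotientGroup.mk_pow, e, ← h4, hx2]
    rw [Subgroup.mem_upperCentralSeries_succ_iff]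
    intro y
    exact key c y (by rw [hc]; trivial)

end isolated

section hyper

variable {R : Type*} [Group R]

theorem mem_ucs_of_generators {S : Set R} (hS : Subgroup.closure S = ⊤) {i : ℕ} {y : R}
    (h : ∀ p ∈ S, ⁅y, p⁆ ∈ Subgroup.upperCentralSeries R i) :
    y ∈ Subgroup.upperCentralSeries R (i + 1) := by
  rw [Subgroup.mem_upperCentralSeries_succ_iff]
  intro r
  set N := Subgroup.upperCentralSeries R i with hN
  have e : ∀ a b : R, ((⁅a, b⁆ : R) : R ⧸ N) = ⁅(a : R ⧸ N), (b : R ⧸ N)⁆ := fun a b =>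
    map_commutatorElement (QuotientGroup.mk' N) a b
  have hr : r ∈ Subgroup.closure S := by rw [hS]; trivial
  have hle : Subgroup.closure S ≤
      (Subgroup.centralizer {(y : R ⧸ N)}).comap (QuotientGroup.mk' N) := by
    rw [Subgroup.closure_le]
    intro p hp
    have h1 := h p hp
    rw [← QuotientGroup.eq_one_iff, e, commutatorElement_eq_one_iff_mul_comm] at h1
    exact Subgroup.mem_centralizer_singleton_iff.2 h1.symm
  have h2 := hle hr
  have h3 : (r : R ⧸ N) * (y : R ⧸ N) = (y : R ⧸ N) * (r : R ⧸ N) :=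
    Subgroup.mem_centralizer_singleton_iff.1 h2
  rw [← QuotientGroup.eq_one_iff, e, commutatorElement_eq_one_iff_mul_comm]
  exact h3.symm

theorem normal_le_hypercentre
    (tf : ∀ (g : R) (n : ℕ), 0 < n → g ^ n = 1 → g = 1)
    {S : Set R} (hS : Subgroup.closure S = ⊤) {W Y : Subgroup R} (hY : Y.Normal)
    (hYW : Y ≤ W) (hW : Group.IsNilpotent W) {l : ℕ} (hl : 0 < l)
    (hSW : ∀ p ∈ S, p ^ l ∈ W) (hcomm : ∀ y ∈ Y, ∀ p ∈ S, Commute p ⁅y, p⁆) :
    ∃ c, Y ≤ Subgroup.upperCentralSeries R c := by
  obtain ⟨c, hc⟩ := hW.nilpotent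
  have tfW : ∀ (g : W) (n : ℕ), 0 < n → g ^ n = 1 → g = 1 := by
    intro g n hn hg
    apply Subtype.ext
    exact tf g n hn (by simpa using congrArg Subtype.val hg)
  have key : ∀ i, ∀ y : R, ∀ hy : y ∈ Y,
      (⟨y, hYW hy⟩ : W) ∈ Subgroup.upperCentralSeries W i →
      y ∈ Subgroup.upperCentralSeries R i := by
    intro i
    induction i with
    | zero =>
      intro y hy h
      rw [Subgroup.upperCentralSeries_zero, Subgroup.mem_bot] at h ⊢
      exact congrArg Subtype.val h
    | succ i ih =>
      intro y hy h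
      apply mem_ucs_of_generators hS
      intro p hp
      have hyp : ⁅y, p⁆ ∈ Y := by
        have h1 : p * y⁻¹ * p⁻¹ ∈ Y := hY.conj_mem _ (inv_mem hy) p
        have h2 := mul_mem hy h1
        rw [commutatorElement_def]
        simpa [mul_assoc] using h2
      refine ih _ hyp ?_
      apply isolated_upperCentralSeries tfW hc i _ l hl
      have h1 := Subgroup.mem_upperCentralSeries_succ_iff.1 h ⟨p ^ l, hSW p hp⟩
      convert h1 using 1
      apply Subtype.ext
      have h2 := pow_commutator_right (hcomm y hy p hp) l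
      simp [commutatorElement_def] at h2 ⊢
      exact h2.symm
  refine ⟨c, fun y hy => key c y hy ?_⟩
  rw [hc]
  trivial

theorem center_le_center
    (tf : ∀ (g : R) (n : ℕ), 0 < n → g ^ n = 1 → g = 1)
    {S : Set R} (hS : Subgroup.closure S = ⊤) {W : Subgroup R} {l : ℕ} (hl : 0 < l)
    (hSW : ∀ p ∈ S, p ^ l ∈ W) (hcomm : ∀ y ∈ W, ∀ p ∈ S, Commute p ⁅y, p⁆) (z : W)
    (hz : z ∈ Subgroup.center W) : (z : R) ∈ Subgroup.center R := by
  have h1 : ∀ p ∈ S, p * (z : R) = z * p := by
    intro p hp
    have h2 := pow_commutator_right (hcomm z z.2 p hp) l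
    have h3 : ⁅(z : R), p ^ l⁆ = 1 := by
      rw [commutatorElement_eq_one_iff_mul_comm]
      have := Subgroup.mem_center_iff.1 hz ⟨p ^ l, hSW p hp⟩
      exact (congrArg Subtype.val this).symm
    rw [h3] at h2
    have h4 := tf _ l hl h2.symm
    exact (commutatorElement_eq_one_iff_mul_comm.1 h4).symm
  rw [Subgroup.mem_center_iff]
  intro r
  have hr : r ∈ Subgroup.closure S := by rw [hS]; trivial
  have hle : Subgroup.closure S ≤ Subgroup.centralizer {(z : R)} := by
    rw [Subgroup.closure_le]
    intro p hp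
    exact Subgroup.mem_centralizer_singleton_iff.2 (h1 p hp)
  exact Subgroup.mem_centralizer_singleton_iff.1 (hle hr)

end hyper

section engel

theorem perfect_acts_trivially (n : ℕ) : ∀ {R : Type*} [Group R] (S : Subgroup R),
    S ≤ ⁅S, (⊤ : Subgroup R)⁆ → ⁅S, Subgroup.upperCentralSeries R n⁆ = ⊥ := by
  induction n with
  | zero =>
    intro R _ S _
    rw [Subgroup.upperCentralSeries_zero, Subgroup.commutator_bot_right]
  | succ n ih =>
    intro R _ S hS
    set U := Subgroup.upperCentralSeries R (n + 1) with hU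
    set f := QuotientGroup.mk' (Subgroup.center R) with hf
    have hsurj : Function.Surjective f := QuotientGroup.mk'_surjective _
    have h1 : S.map f ≤ ⁅S.map f, (⊤ : Subgroup (R ⧸ Subgroup.center R))⁆ := by
      rw [← Subgroup.map_top_of_surjective f hsurj, ← Subgroup.map_commutator]
      exact Subgroup.map_mono hS
    have h2 := ih (S.map f) h1
    have h3 : U.map f ≤ Subgroup.upperCentralSeries (R ⧸ Subgroup.center R) n := by
      rw [Subgroup.map_le_iff_le_comap]
      exact le_of_eq (Subgroup.comap_upperCentralSeries_quotient_center n).symm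
    have h4 : ⁅S, U⁆ ≤ Subgroup.center R := by
      have h5 : (⁅S, U⁆).map f = ⊥ := by
        rw [eq_bot_iff, Subgroup.map_commutator, ← h2]
        exact Subgroup.commutator_mono le_rfl h3
      rwa [Subgroup.map_eq_bot_iff, hf, QuotientGroup.ker_mk'] at h5
    have h6 : ⁅⁅(⊤ : Subgroup R), U⁆, S⁆ = ⊥ := by
      rw [eq_bot_iff, ← ih S hS, Subgroup.commutator_comm S]
      apply Subgroup.commutator_mono _ le_rfl
      rw [Subgroup.commutator_comm]
      exact Subgroup.commutator_upperCentralSeries_top_le R n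
    have h7 : ⁅⁅U, S⁆, (⊤ : Subgroup R)⁆ = ⊥ := by
      rw [Subgroup.commutator_top_right_eq_bot_iff_le_center, Subgroup.commutator_comm]
      exact h4
    have h8 := Subgroup.commutator_commutator_eq_bot_of_rotate h6 h7
    rw [eq_bot_iff, ← h8]
    exact Subgroup.commutator_mono hS le_rfl

end engel

end Run7.h54
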