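import Pool.Agent.Run7.h54.Schur
import Pool.Agent.Run7.h54.Nilp

/-! No nontrivial abelian subgroup is normalised by a big subgroup. -/

open scoped Pointwise commutatorElement

namespace Run7.h54

variable {G : Type*} [Group G]

/-- The subgroup generated by the conjugates of `x` under `R`. -/
def conjClosure (x : G) (R : Subgroup G) : Subgroup G :=
  Subgroup.closure {y | ∃ r ∈ R, y = r * x * r⁻¹}

theorem conjClosure_mono (x : G) {R R' : Subgroup G} (h : R ≤ R') :
    conjClosure x R ≤ conjClosure x R' := by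
  apply Subgroup.closure_mono
  rintro y ⟨r, hr, rfl⟩
  exact ⟨r, h hr, rfl⟩

theorem exists_finset_perfect (hG : Hyp G) {D : Set G} (hD : Subgroup.closure D = ⊤) {x n : G}
    (hx : x ≠ 1) (hn : n ∈ D) :
    ∃ F : Finset G, (F : Set G) ⊆ D ∧ n ∈ F ∧ x ∈ Subgroup.closure (F : Set G) ∧
      x ∈ ⁅conjClosure x (Subgroup.closure (F : Set G)), Subgroup.closure (F : Set G)⁆ := by
  classical
  let I := {F : Finset G // (F : Set G) ⊆ D}
  have : Nonempty I := ⟨⟨∅, by simp⟩⟩
  let R : I → Subgroup G := fun F => Subgroup.closure (F.1 : Set G)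
  have hRmono : ∀ F F' : I, F.1 ⊆ F'.1 → R F ≤ R F' := fun F F' h =>
    Subgroup.closure_mono (by exact_mod_cast h)
  let U : I → I → I := fun F F' => ⟨F.1 ∪ F'.1, by
    push_cast; exact Set.union_subset F.2 F'.2⟩
  have hU1 : ∀ F F', F.1 ⊆ (U F F').1 := fun F F' => Finset.subset_union_left
  have hU2 : ∀ F F', F'.1 ⊆ (U F F').1 := fun F F' => Finset.subset_union_right
  have hdir : ∀ (K : I → Subgroup G), (∀ F F' : I, F.1 ⊆ F'.1 → K F ≤ K F') →
      Directed (· ≤ ·) K := fun K hK F F' =>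
    ⟨U F F', hK _ _ (hU1 F F'), hK _ _ (hU2 F F')⟩
  have hRtop : ⨆ F, R F = ⊤ := by
    rw [eq_top_iff, ← hD, Subgroup.closure_le]
    intro d hd
    have : d ∈ R ⟨{d}, by simpa using hd⟩ := Subgroup.subset_closure (by simp)
    exact (le_iSup R _) this
  have hRmem : ∀ g : G, ∃ F, g ∈ R F := by
    intro g
    have : g ∈ ⨆ F, R F := by rw [hRtop]; trivial
    exact (Subgroup.mem_iSup_of_directed (hdir R hRmono)).1 this
  let S : I → Subgroup G := fun F => conjClosure x (R F)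
  have hSmono : ∀ F F' : I, F.1 ⊆ F'.1 → S F ≤ S F' := fun F F' h =>
    conjClosure_mono x (hRmono F F' h)
  have hStop : ⨆ F, S F = ⊤ := by
    rw [eq_top_iff, ← hG.normalClosure hx, Subgroup.normalClosure, Subgroup.closure_le]
    intro y hy
    rw [Group.mem_conjugatesOfSet_iff] at hy
    obtain ⟨a, ha, hconj⟩ := hy
    rw [Set.mem_singleton_iff] at ha
    subst ha
    obtain ⟨c, rfl⟩ := isConj_iff.1 hconj
    obtain ⟨F, hF⟩ := hRmem c
    have : c * a * c⁻¹ ∈ S F := Subgroup.subset_closure ⟨c, hF, rfl⟩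
    exact (le_iSup S F) this
  have hSmem : ∀ g : G, ∃ F, g ∈ S F := by
    intro g
    have : g ∈ ⨆ F, S F := by rw [hStop]; trivial
    exact (Subgroup.mem_iSup_of_directed (hdir S hSmono)).1 this
  let C : I → Subgroup G := fun F => ⁅S F, R F⁆
  have hCmono : ∀ F F' : I, F.1 ⊆ F'.1 → C F ≤ C F' := fun F F' h =>
    Subgroup.commutator_mono (hSmono F F' h) (hRmono F F' h)
  have hCtop : ⨆ F, C F = ⊤ := by
    rw [eq_top_iff, ← hG.perfect, Subgroup.commutator_le]
    intro a _ b _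
    obtain ⟨F, hF⟩ := hSmem a
    obtain ⟨F', hF'⟩ := hRmem b
    have : ⁅a, b⁆ ∈ C (U F F') := Subgroup.commutator_mem_commutator
      (hSmono _ _ (hU1 F F') hF) (hRmono _ _ (hU2 F F') hF')
    exact (le_iSup C _) this
  obtain ⟨F1, hF1⟩ : ∃ F, x ∈ C F := by
    have : x ∈ ⨆ F, C F := by rw [hCtop]; trivial
    exact (Subgroup.mem_iSup_of_directed (hdir C hCmono)).1 this
  obtain ⟨F2, hF2⟩ := hRmem x
  let F3 : I := ⟨{n}, by simpa using hn⟩
  refine ⟨(U F1 (U F2 F3)).1, (U F1 (U F2 F3)).2, ?_, ?_, ?_⟩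
  · exact hU2 F1 _ (hU2 F2 F3 (by simp [F3]))
  · exact hRmono _ _ (hU2 F1 _) (hRmono _ _ (hU1 F2 F3) hF2)
  · exact hCmono _ _ (hU1 F1 _) hF1

/-- Conjugates of elements of `A`. -/
def conjSet (A : Subgroup G) : Set G := {p | ∃ g : G, p ∈ MulAut.conj g • A}

theorem closure_conjSet (hG : Hyp G) {A : Subgroup G} (hA : A ≠ ⊥) :
    Subgroup.closure (conjSet A) = ⊤ := by
  obtain ⟨a, ha1⟩ := Subgroup.ne_bot_iff_exists_ne_one.1 hA
  rw [eq_top_iff, ← hG.normalClosure (g := (a : G)) (by simpa using ha1),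
    Subgroup.normalClosure, Subgroup.closure_le]
  intro y hy
  rw [Group.mem_conjugatesOfSet_iff] at hy
  obtain ⟨b, hb, hconj⟩ := hy
  rw [Set.mem_singleton_iff] at hb
  subst hb
  obtain ⟨c, rfl⟩ := isConj_iff.1 hconj
  exact Subgroup.subset_closure ⟨c, conj_mem c a.2⟩

/-- Elements normalising a conjugate of the abelian group `A`. -/
theorem commute_commutator {A N : Subgroup G} (hA : ∀ a ∈ A, ∀ b ∈ A, a * b = b * a)
    (hnorm : ∀ x ∈ N, ∀ a ∈ A, x * a * x⁻¹ ∈ A) {g y p : G} (hy : y ∈ MulAut.conj g • N)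
    (hp : p ∈ MulAut.conj g • A) : Commute p ⁅y, p⁆ := by
  rw [mem_conj] at hy hp
  have h1 := hnorm _ hy _ hp
  have h2 := hA _ hp _ (mul_mem h1 (inv_mem hp))
  have h3 : ⁅y, p⁆ = g * ((g⁻¹ * y * g) * (g⁻¹ * p * g) * (g⁻¹ * y * g)⁻¹ *
      (g⁻¹ * p * g)⁻¹) * g⁻¹ := by
    rw [commutatorElement_def]; group
  rw [h3]
  have h4 : p = g * (g⁻¹ * p * g) * g⁻¹ := by group
  calc p * (g * ((g⁻¹ * y * g) * (g⁻¹ * p * g) * (g⁻¹ * y * g)⁻¹ *
      (g⁻¹ * p * g)⁻¹) * g⁻¹) = g * ((g⁻¹ * p * g) * ((g⁻¹ * y * g) * (g⁻¹ * p * g) *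
        (g⁻¹ * y * g)⁻¹ * (g⁻¹ * p * g)⁻¹)) * g⁻¹ := by group
    _ = g * (((g⁻¹ * y * g) * (g⁻¹ * p * g) *
        (g⁻¹ * y * g)⁻¹ * (g⁻¹ * p * g)⁻¹) * (g⁻¹ * p * g)) * g⁻¹ := by rw [h2]
    _ = _ := by group

/-- A set-up for the two main steps: a finite set `E` of conjugators. -/
theorem family_nilpotent {A N : Subgroup G} (hA : ∀ a ∈ A, ∀ b ∈ A, a * b = b * a)
    (hnorm : ∀ x ∈ N, ∀ a ∈ A, x * a * x⁻¹ ∈ A) (E : Finset G) (R : Subgroup G) :
    Group.IsNilpotent (⨆ g ∈ E, ((MulAut.conj g • A ⊓ ⨅ g : E, MulAut.conj (g : G) • N).subgroupOf R)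
      : Subgroup R) := by
  classical
  set J := ⨅ g : E, MulAut.conj (g : G) • N with hJ
  have h0 : (⨆ g ∈ E, ((MulAut.conj g • A ⊓ J).subgroupOf R)) =
      ⨆ g ∈ (Finset.univ : Finset E), ((MulAut.conj (g : G) • A ⊓ J).subgroupOf R) := by
    simp only [Finset.mem_univ, iSup_pos, iSup_subtype]
  rw [h0]
  apply nilpotent_of_family (J.subgroupOf R)
  · intro i b hb
    exact hb.2
  · intro i j hj b hb
    rw [Subgroup.mem_subgroupOf] at hj hb ⊢
    refine ⟨?_, ?_⟩
    · have h1 : (j : G) ∈ MulAut.conj (i : G) • N := (Subgroup.mem_iInf.1 hj) i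
      have h2 : (b : G) ∈ MulAut.conj (i : G) • A := hb.1
      show ((j * b * j⁻¹ : R) : G) ∈ MulAut.conj (i : G) • A
      rw [mem_conj] at h1 h2 ⊢
      have h3 := hnorm _ h1 _ h2
      convert h3 using 1
      push_cast
      group
    · have := mul_mem (mul_mem hj hb.2) (inv_mem hj)
      simpa using this
  · intro i a ha b hb
    rw [Subgroup.mem_subgroupOf] at ha hb
    have h1 : (a : G) ∈ MulAut.conj (i : G) • A := ha.1
    have h2 : (b : G) ∈ MulAut.conj (i : G) • A := hb.1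
    rw [mem_conj] at h1 h2
    have h3 := hA _ h1 _ h2
    apply Subtype.ext
    push_cast
    have h4 : (a : G) * b = (i : G) * (((i : G)⁻¹ * a * i) * ((i : G)⁻¹ * b * i)) * (i : G)⁻¹ := by
      group
    rw [h4, h3]
    group

theorem exists_exponent (hG : Hyp G) {A N : Subgroup G} (hA : ∀ a ∈ A, ∀ b ∈ A, a * b = b * a)
    (hN : Big N) (E : Finset G) :
    ∃ l : ℕ, 0 < l ∧ ∀ g ∈ E, ∀ a ∈ MulAut.conj g • A,
      a ^ l ∈ ⨅ g : E, MulAut.conj (g : G) • N := by
  classical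
  have hbig : Big (⨅ g : E, MulAut.conj (g : G) • N) := Big.iInf fun i => hN.smul _
  have h1 : ∀ g : G, ∃ l : ℕ, 0 < l ∧ ∀ a ∈ MulAut.conj g • A,
      a ^ l ∈ ⨅ g : E, MulAut.conj (g : G) • N := fun g =>
    hbig.exists_uniform_pow (smul_ne_top (hG.ne_top_of_comm hA) g)
  choose l hl0 hl using h1
  refine ⟨∏ g ∈ E, l g, Finset.prod_pos fun g _ => hl0 g, ?_⟩
  intro g hg a ha
  obtain ⟨k, hk⟩ := Finset.dvd_prod_of_mem l hg
  rw [hk, pow_mul]
  exact pow_mem (hl g a ha) k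

/-- Finitely many elements of conjugates of `A` generate a proper subgroup. -/
theorem closure_ne_top (hG : Hyp G) {A N : Subgroup G} (hA : ∀ a ∈ A, ∀ b ∈ A, a * b = b * a)
    (hN : Big N) (hnorm : ∀ x ∈ N, ∀ a ∈ A, x * a * x⁻¹ ∈ A) (F : Finset G)
    (hF : (F : Set G) ⊆ conjSet A) : Subgroup.closure (F : Set G) ≠ ⊤ := by
  classical
  intro htop
  have hc : ∀ p : G, ∃ g : G, p ∈ F → p ∈ MulAut.conj g • A := by
    intro p
    by_cases hp : p ∈ F
    · obtain ⟨g, hg⟩ := hF hp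
      exact ⟨g, fun _ => hg⟩
    · exact ⟨1, fun h => absurd h hp⟩
  choose c hc using hc
  let E : Finset G := F.image c
  have hE : ∀ p ∈ F, c p ∈ E := fun p hp => Finset.mem_image_of_mem c hp
  obtain ⟨l, hl0, hl⟩ := exists_exponent hG hA hN E
  set R := Subgroup.closure (F : Set G) with hR
  have hnil := family_nilpotent hA hnorm E R
  set J := ⨅ g : E, MulAut.conj (g : G) • N with hJ
  set W : Subgroup R := ⨆ g ∈ E, ((MulAut.conj g • A ⊓ J).subgroupOf R) with hW
  have hFR : ∀ p ∈ F, p ∈ R := fun p hp => Subgroup.subset_closure hp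
  have hWmem : ∀ p (hp : p ∈ F), (⟨p, hFR p hp⟩ : R) ^ l ∈ W := by
    intro p hp
    have h1 : (⟨p, hFR p hp⟩ : R) ^ l ∈ (MulAut.conj (c p) • A ⊓ J).subgroupOf R := by
      rw [Subgroup.mem_subgroupOf]
      exact ⟨pow_mem (hc p hp) l, hl _ (hE p hp) p (hc p hp)⟩
    exact (le_iSup₂ (f := fun g (_ : g ∈ E) => (MulAut.conj g • A ⊓ J).subgroupOf R) (c p)
      (hE p hp)) h1
  have hWJ : ∀ w ∈ W, (w : G) ∈ J := by
    intro w hw
    have : W ≤ J.subgroupOf R := by
      refine iSup₂_le fun g _ => ?_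
      intro b hb
      exact hb.2
    exact this hw
  have tf : ∀ (g : R) (n : ℕ), 0 < n → g ^ n = 1 → g = 1 := by
    intro g n hn hg
    apply Subtype.ext
    exact hG.tf g n hn (by simpa using congrArg Subtype.val hg)
  -- `F` contains a nontrivial element
  have hne : ∃ p ∈ F, p ≠ 1 := by
    by_contra hcon
    push Not at hcon
    have h1 : Subgroup.closure (F : Set G) = ⊥ := by
      rw [Subgroup.closure_eq_bot_iff]
      intro p hp
      exact hcon p hp
    rw [hR, h1] at htop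
    obtain ⟨a, b, hab⟩ := hG.nonab
    have ha : a ∈ (⊥ : Subgroup G) := by rw [htop]; trivial
    have hb : b ∈ (⊥ : Subgroup G) := by rw [htop]; trivial
    rw [Subgroup.mem_bot] at ha hb
    exact hab (by rw [ha, hb])
  obtain ⟨p, hp, hp1⟩ := hne
  have : Nontrivial W := by
    refine ⟨⟨⟨_, hWmem p hp⟩, 1, fun h => hp1 ?_⟩⟩
    have h1 := congrArg Subtype.val h
    have h2 := tf _ l hl0 h1
    exact congrArg Subtype.val h2
  have hcent := Group.IsNilpotent.center_ne_bot (G := W)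
  obtain ⟨z, hz⟩ := Subgroup.ne_bot_iff_exists_ne_one.1 hcent
  have hzc := center_le_center (R := R) tf
    (S := ((↑) : R → G) ⁻¹' (F : Set G)) (W := W) (l := l)
    Subgroup.closure_closure_coe_preimage hl0 (fun q hq => hWmem q hq) (fun y hy q hq => by
        have h1 : (y : G) ∈ MulAut.conj (c q) • N := by
          have := hWJ y hy
          exact (Subgroup.mem_iInf.1 this) ⟨c q, hE q hq⟩
        have h2 := commute_commutator hA hnorm h1 (hc q hq)
        apply Subtype.ext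
        simpa [commutatorElement_def] using h2.eq) z z.2
  have hzG : ((z : W) : R).1 ∈ Subgroup.center G := by
    rw [Subgroup.mem_center_iff]
    intro x
    have hx : x ∈ R := by rw [htop]; trivial
    exact congrArg Subtype.val (Subgroup.mem_center_iff.1 hzc ⟨x, hx⟩)
  rw [hG.center, Subgroup.mem_bot] at hzG
  apply hz
  apply Subtype.ext
  apply Subtype.ext
  apply Subtype.ext
  exact hzG

theorem conjClosure_le_map {x : G} {R : Subgroup G} (hx : x ∈ R) :
    conjClosure x R ≤ (Subgroup.normalClosure {(⟨x, hx⟩ : R)}).map R.subtype := by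
  rw [conjClosure, Subgroup.closure_le]
  rintro y ⟨r, hr, rfl⟩
  have h1 : (⟨x, hx⟩ : R) ∈ Subgroup.normalClosure {(⟨x, hx⟩ : R)} :=
    Subgroup.subset_normalClosure (Set.mem_singleton _)
  have h2 : (Subgroup.normalClosure {(⟨x, hx⟩ : R)}).Normal := Subgroup.normalClosure_normal
  exact ⟨(⟨r, hr⟩ : R) * ⟨x, hx⟩ * (⟨r, hr⟩ : R)⁻¹, h2.conj_mem _ h1 ⟨r, hr⟩, rfl⟩

/-- **Main Lemma.** An abelian subgroup normalised by a big subgroup is trivial. -/
theorem Hyp.abelian_trivial (hG : Hyp G) {A N : Subgroup G}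
    (hA : ∀ a ∈ A, ∀ b ∈ A, a * b = b * a)
    (hN : Big N) (hnorm : ∀ x ∈ N, ∀ a ∈ A, x * a * x⁻¹ ∈ A) : A = ⊥ := by
  classical
  by_contra hne
  -- choose non-commuting `n ∈ A`, `x ∈ N`
  obtain ⟨n, hnA, x, hxN, hxn⟩ : ∃ n ∈ A, ∃ x ∈ N, n * x ≠ x * n := by
    obtain ⟨n, hn1⟩ := Subgroup.ne_bot_iff_exists_ne_one.1 hne
    by_contra hcon
    push Not at hcon
    exact hn1 (Subtype.ext (hG.centralizer_big hN fun j hj => hcon n n.2 j hj))
  have hx1 : x ≠ 1 := by
    rintro rfl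
    exact hxn (by simp)
  have hnD : n ∈ conjSet A := ⟨1, by rw [mem_conj]; simpa using hnA⟩
  obtain ⟨F, hFD, hnF, hxF, hxperf⟩ :=
    exists_finset_perfect hG (closure_conjSet hG hne) hx1 hnD
  have hRtop := closure_ne_top hG hA hN hnorm F hFD
  set R := Subgroup.closure (F : Set G) with hR
  have hc : ∀ p : G, ∃ g : G, p ∈ F → p ∈ MulAut.conj g • A := by
    intro p
    by_cases hp : p ∈ F
    · obtain ⟨g, hg⟩ := hFD hp
      exact ⟨g, fun _ => hg⟩
    · exact ⟨1, fun h => absurd h hp⟩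
  choose c hc using hc
  -- coset representatives of `N ⊓ R` in `R`
  obtain ⟨T, hT⟩ : ∃ T : Finset G, ∀ w ∈ R, ∃ t ∈ T, t⁻¹ * w ∈ N := by
    have hfin : Finite (R ⧸ N.subgroupOf R) := Subgroup.index_ne_zero_iff_finite.1 (hN R hRtop)
    have : Fintype (R ⧸ N.subgroupOf R) := Fintype.ofFinite _
    refine ⟨Finset.univ.image (fun q : R ⧸ N.subgroupOf R => (q.out : G)), ?_⟩
    intro w hw
    refine ⟨((QuotientGroup.mk ⟨w, hw⟩ : R ⧸ N.subgroupOf R).out : G),
      Finset.mem_image_of_mem _ (Finset.mem_univ _), ?_⟩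
    have h1 : ((QuotientGroup.mk ⟨w, hw⟩ : R ⧸ N.subgroupOf R).out)⁻¹ * ⟨w, hw⟩ ∈
        N.subgroupOf R := by
      rw [← QuotientGroup.eq, QuotientGroup.out_eq']
    rw [Subgroup.mem_subgroupOf] at h1
    simpa using h1
  let E : Finset G := F.image c ∪ T
  have hE : ∀ p ∈ F, c p ∈ E := fun p hp =>
    Finset.mem_union_left _ (Finset.mem_image_of_mem c hp)
  have hET : ∀ t ∈ T, t ∈ E := fun t ht => Finset.mem_union_right _ ht
  obtain ⟨l, hl0, hl⟩ := exists_exponent hG hA hN E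
  have hnil := family_nilpotent hA hnorm E R
  set J := ⨅ g : E, MulAut.conj (g : G) • N with hJ
  set W : Subgroup R := ⨆ g ∈ E, ((MulAut.conj g • A ⊓ J).subgroupOf R) with hW
  have hWof : ∀ g ∈ E, ∀ r : R, (r : G) ∈ MulAut.conj g • A → (r : G) ∈ J → r ∈ W := by
    intro g hg r h1 h2
    exact (le_iSup₂ (f := fun g (_ : g ∈ E) => (MulAut.conj g • A ⊓ J).subgroupOf R) g hg)
      (show r ∈ (MulAut.conj g • A ⊓ J).subgroupOf R from ⟨h1, h2⟩)
  have hWJ : ∀ w ∈ W, (w : G) ∈ J := by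
    intro w hw
    have : W ≤ J.subgroupOf R := by
      refine iSup₂_le fun g _ => ?_
      intro b hb
      exact hb.2
    exact this hw
  have tf : ∀ (g : R) (n : ℕ), 0 < n → g ^ n = 1 → g = 1 := by
    intro g n hn hg
    apply Subtype.ext
    exact hG.tf g n hn (by simpa using congrArg Subtype.val hg)
  have hFR : ∀ p ∈ F, p ∈ R := fun p hp => Subgroup.subset_closure hp
  have hnR : n ∈ R := hFR n hnF
  set n' : R := ⟨n, hnR⟩ with hn'
  have hYW : Subgroup.normalClosure {n' ^ l} ≤ W := by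
    rw [Subgroup.normalClosure, Subgroup.closure_le]
    intro y hy
    rw [Group.mem_conjugatesOfSet_iff] at hy
    obtain ⟨a, ha, hconj⟩ := hy
    rw [Set.mem_singleton_iff] at ha
    subst ha
    obtain ⟨w, rfl⟩ := isConj_iff.1 hconj
    obtain ⟨t, ht, htw⟩ := hT w w.2
    have h1 : ((w * n' * w⁻¹ : R) : G) ∈ MulAut.conj t • A := by
      rw [mem_conj]
      have h2 := hnorm _ htw _ hnA
      convert h2 using 1
      show t⁻¹ * ((w : G) * n * (w : G)⁻¹) * t = t⁻¹ * ↑w * n * (t⁻¹ * ↑w)⁻¹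
      group
    have h3 : w * n' ^ l * w⁻¹ = (w * n' * w⁻¹) ^ l := by
      rw [conj_pow]
    show w * n' ^ l * w⁻¹ ∈ W
    rw [h3]
    exact hWof t (hET t ht) _ (pow_mem h1 l) (hl t (hET t ht) _ h1)
  obtain ⟨m, hm⟩ := normal_le_hypercentre tf
    (S := ((↑) : R → G) ⁻¹' (F : Set G)) Subgroup.closure_closure_coe_preimage
    (W := W) (Y := Subgroup.normalClosure {n' ^ l}) Subgroup.normalClosure_normal hYW hnil hl0
    (fun q hq => hWof (c q) (hE q hq) _ (pow_mem (hc q hq) l) (hl _ (hE q hq) _ (hc q hq)))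
    (fun y hy q hq => by
      have h1 : (y : G) ∈ MulAut.conj (c q) • N :=
        (Subgroup.mem_iInf.1 (hWJ y (hYW hy))) ⟨c q, hE q hq⟩
      have h2 := commute_commutator hA hnorm h1 (hc q hq)
      apply Subtype.ext
      simpa [commutatorElement_def] using h2.eq)
  -- the normal closure of `x` in `R`
  set x' : R := ⟨x, hxF⟩ with hx'
  have hSperf : Subgroup.normalClosure {x'} ≤
      ⁅Subgroup.normalClosure {x'}, (⊤ : Subgroup R)⁆ := by
    apply Subgroup.normalClosure_le_normal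
    rw [Set.singleton_subset_iff]
    have h1 : x ∈ (⁅Subgroup.normalClosure {x'}, (⊤ : Subgroup R)⁆).map R.subtype := by
      rw [Subgroup.map_commutator]
      have h2 : (⊤ : Subgroup R).map R.subtype = R := by
        rw [← MonoidHom.range_eq_map, Subgroup.range_subtype]
      rw [h2]
      exact Subgroup.commutator_mono (conjClosure_le_map hxF) le_rfl hxperf
    obtain ⟨x2, hx2, hx3⟩ := h1
    have h4 : x2 = x' := Subtype.ext hx3
    rw [h4] at hx2
    exact hx2
  have hact := perfect_acts_trivially m _ hSperf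
  have hcomm : x' * n' ^ l = n' ^ l * x' := by
    rw [← commutatorElement_eq_one_iff_mul_comm, ← Subgroup.mem_bot, ← hact]
    exact Subgroup.commutator_mem_commutator (Subgroup.subset_normalClosure rfl)
      (hm (Subgroup.subset_normalClosure rfl))
  have hcomm' : ⁅x, n ^ l⁆ = 1 := by
    rw [commutatorElement_eq_one_iff_mul_comm]
    exact congrArg Subtype.val hcomm
  have hcc : Commute n ⁅x, n⁆ := by
    apply commute_commutator (g := 1) hA hnorm
    · rw [mem_conj]; simpa using hxN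
    · rw [mem_conj]; simpa using hnA
  rw [pow_commutator_right hcc l] at hcomm'
  have h9 := hG.tf _ l hl0 hcomm'
  exact hxn (commutatorElement_eq_one_iff_mul_comm.1 h9).symm

end Run7.h54
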