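import Mathlib

/-! Basic facts about big subgroups of a torsion-free simple group. -/

open scoped Pointwise commutatorElement

namespace Run7.h54

variable {G : Type*} [Group G]

/-- `J` is big if it meets every proper subgroup in a subgroup of finite index of the latter. -/
def Big (J : Subgroup G) : Prop := ∀ K : Subgroup G, K ≠ ⊤ → J.relIndex K ≠ 0

/-- The standing hypotheses: `G` is torsion-free, simple and non-abelian. -/
structure Hyp (G : Type*) [Group G] : Prop where
  simple : ∀ N : Subgroup G, N.Normal → N = ⊥ ∨ N = ⊤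
  tf : ∀ (g : G) (n : ℕ), 0 < n → g ^ n = 1 → g = 1
  nonab : ∃ a b : G, a * b ≠ b * a

theorem big_top : Big (⊤ : Subgroup G) := by
  intro K _
  simp

theorem Big.mono {J K : Subgroup G} (hJ : Big J) (h : J ≤ K) : Big K := by
  intro L hL h0
  exact hJ L hL (Subgroup.relIndex_eq_zero_of_le_left h h0)

theorem Big.inf {J K : Subgroup G} (hJ : Big J) (hK : Big K) : Big (J ⊓ K) :=
  fun L hL => Subgroup.relIndex_inf_ne_zero (hJ L hL) (hK L hL)

theorem Big.iInf {ι : Type*} [Finite ι] {J : ι → Subgroup G} (hJ : ∀ i, Big (J i)) :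
    Big (⨅ i, J i) :=
  fun L hL => Subgroup.relIndex_iInf_ne_zero fun i => hJ i L hL

theorem Big.of_relIndex {J K : Subgroup G} (hK : Big K) (h : J.relIndex K ≠ 0) : Big J :=
  fun L hL => Subgroup.relIndex_ne_zero_trans h (hK L hL)

theorem mem_conj {J : Subgroup G} {g x : G} : x ∈ MulAut.conj g • J ↔ g⁻¹ * x * g ∈ J := by
  rw [Subgroup.mem_pointwise_smul_iff_inv_smul_mem, ← map_inv]
  simp only [MulAut.smul_def, MulAut.conj_apply, inv_inv]

theorem conj_mem {J : Subgroup G} (g : G) {x : G} (hx : x ∈ J) :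
    g * x * g⁻¹ ∈ MulAut.conj g • J := by
  rw [mem_conj]
  have : g⁻¹ * (g * x * g⁻¹) * g = x := by group
  rwa [this]

theorem smul_ne_top {K : Subgroup G} (hK : K ≠ ⊤) (g : G) : MulAut.conj g • K ≠ ⊤ := by
  intro h
  apply hK
  rw [eq_top_iff]
  intro x _
  have : MulAut.conj g • x ∈ MulAut.conj g • K := by rw [h]; trivial
  exact (Subgroup.smul_mem_pointwise_smul_iff).1 this

theorem Big.smul {J : Subgroup G} (hJ : Big J) (g : G) : Big (MulAut.conj g • J) := by
  intro K hK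
  have h1 := hJ (MulAut.conj g⁻¹ • K) (smul_ne_top hK g⁻¹)
  have h2 := Subgroup.relIndex_pointwise_smul (MulAut.conj g) J (MulAut.conj g⁻¹ • K)
  rw [← h2] at h1
  rw [smul_smul, ← map_mul, mul_inv_cancel, map_one, one_smul] at h1
  exact h1

theorem Hyp.ne_top_of_comm (hG : Hyp G) {K : Subgroup G}
    (hK : ∀ a ∈ K, ∀ b ∈ K, a * b = b * a) : K ≠ ⊤ := by
  rintro rfl
  obtain ⟨a, b, h⟩ := hG.nonab
  exact h (hK a trivial b trivial)

theorem Hyp.zpowers_ne_top (hG : Hyp G) (g : G) : Subgroup.zpowers g ≠ ⊤ := by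
  apply hG.ne_top_of_comm
  intro a ha b hb
  obtain ⟨m, rfl⟩ := Subgroup.mem_zpowers_iff.1 ha
  obtain ⟨n, rfl⟩ := Subgroup.mem_zpowers_iff.1 hb
  rw [← zpow_add, ← zpow_add, add_comm]

theorem Big.exists_pow (hG : Hyp G) {J : Subgroup G} (hJ : Big J) (g : G) :
    ∃ k : ℕ, 0 < k ∧ g ^ k ∈ J := by
  obtain ⟨n, h1, _, h2⟩ := Subgroup.exists_pow_mem_of_relIndex_ne_zero
    (hJ _ (hG.zpowers_ne_top g)) (Subgroup.mem_zpowers g)
  exact ⟨n, h1, h2.1⟩

theorem Big.exists_uniform_pow {J : Subgroup G} (hJ : Big J) {K : Subgroup G} (hK : K ≠ ⊤) :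
    ∃ n : ℕ, 0 < n ∧ ∀ a ∈ K, a ^ n ∈ J := by
  refine ⟨(J.relIndex K).factorial, Nat.factorial_pos _, fun a ha => ?_⟩
  exact (Subgroup.pow_mem_of_relIndex_ne_zero_of_dvd (hJ K hK) ha
    (fun m h1 h2 => Nat.dvd_factorial h1 h2)).1

theorem Hyp.center (hG : Hyp G) : Subgroup.center G = ⊥ := by
  rcases hG.simple (Subgroup.center G) inferInstance with h | h
  · exact h
  · exfalso
    obtain ⟨a, b, hab⟩ := hG.nonab
    have : b ∈ Subgroup.center G := by rw [h]; trivial
    exact hab ((Subgroup.mem_center_iff.1 this) a)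

theorem Hyp.normalClosure (hG : Hyp G) {g : G} (hg : g ≠ 1) :
    Subgroup.normalClosure {g} = ⊤ := by
  rcases hG.simple (Subgroup.normalClosure {g}) inferInstance with h | h
  · exfalso
    apply hg
    have : g ∈ Subgroup.normalClosure {g} := Subgroup.subset_normalClosure rfl
    rw [h] at this
    simpa using this
  · exact h

theorem Hyp.perfect (hG : Hyp G) : ⁅(⊤ : Subgroup G), (⊤ : Subgroup G)⁆ = ⊤ := by
  rcases hG.simple ⁅(⊤ : Subgroup G), (⊤ : Subgroup G)⁆ inferInstance with h | h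
  · exfalso
    obtain ⟨a, b, hab⟩ := hG.nonab
    have : ⁅a, b⁆ ∈ ⁅(⊤ : Subgroup G), (⊤ : Subgroup G)⁆ :=
      Subgroup.commutator_mem_commutator trivial trivial
    rw [h] at this
    exact hab (commutatorElement_eq_one_iff_mul_comm.1 (by simpa using this))
  · exact h

end Run7.h54
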