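import Pool.Agent.Run7.h54.Pmp

/-! Extremely proximal actions of torsion-free barely transitive groups. -/

open scoped Pointwise Topology
open Set Function

namespace Run7.h54

universe u

variable {G : Type u} [Group G]

/-- A group satisfying the standing hypotheses is not free. -/
theorem Hyp.not_free (hG : Hyp G) {ι : Type*} (i₀ : ι) (z : ι → G) (hinj : Injective (FreeGroup.lift z))
    (hsurj : Surjective (FreeGroup.lift z)) : False := by
  let e : FreeGroup ι ≃* G := MulEquiv.ofBijective (FreeGroup.lift z) ⟨hinj, hsurj⟩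
  let φ : FreeGroup ι →* Multiplicative ℤ := FreeGroup.lift fun _ => Multiplicative.ofAdd 1
  let ψ : G →* Multiplicative ℤ := φ.comp e.symm.toMonoidHom
  have h0 : ψ (z i₀) = Multiplicative.ofAdd 1 := by
    have h1 : e.symm (z i₀) = FreeGroup.of i₀ := by
      rw [MulEquiv.symm_apply_eq]
      show z i₀ = FreeGroup.lift z (FreeGroup.of i₀)
      rw [FreeGroup.lift_apply_of]
    show φ (e.symm (z i₀)) = _
    rw [h1]
    simp [φ]
  rcases hG.simple ψ.ker inferInstance with h | h
  · obtain ⟨a, b, hab⟩ := hG.nonab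
    have hinj' : Injective ψ := (MonoidHom.ker_eq_bot_iff ψ).1 h
    exact hab (hinj' (by rw [map_mul, map_mul, mul_comm]))
  · have h1 : z i₀ ∈ ψ.ker := by rw [h]; trivial
    rw [MonoidHom.mem_ker, h0] at h1
    have h2 := congrArg Multiplicative.toAdd h1
    simp at h2

section ep

variable {Ω : Type*} [MulAction G Ω] {X : Type*} [TopologicalSpace X] [T2Space X]
  [MulAction G X] [ContinuousConstSMul G X]

/-- The elements mapping the complement of `V` into `U`. -/
def Pong (U V : Set X) : Set G := {z | z • Vᶜ ⊆ U}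

theorem pong_avoid [MulAction.IsPretransitive G Ω] [Infinite Ω]
    (hep : ∀ A U : Set X, IsClosed A → A ≠ univ → IsOpen U → U.Nonempty → ∃ g : G, g • A ⊆ U)
    (h3 : ∀ a b : X, ({a, b} : Set X) ≠ univ) (α : Ω) {U V : Set X} (hU : IsOpen U)
    (hUn : U.Nonempty) (hV : IsOpen V) (hVn : V.Nonempty) (D : Finset Ω) :
    ∃ z : G, z ∈ (Pong U V : Set G) ∧ z • α ∉ D := by
  classical
  by_contra hcon
  push Not at hcon
  -- the minimal size of such a set
  have hex : ∃ m : ℕ, ∃ (U V : Set X) (D : Finset Ω), IsOpen U ∧ U.Nonempty ∧ IsOpen V ∧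
      V.Nonempty ∧ D.card = m ∧ ∀ z : G, z ∈ (Pong U V : Set G) → z • α ∈ D :=
    ⟨_, U, V, D, hU, hUn, hV, hVn, rfl, hcon⟩
  obtain ⟨U, V, D, hU, hUn, hV, hVn, hD, hz⟩ := Nat.find_spec hex
  have hmin : ∀ (U V : Set X) (D : Finset Ω), IsOpen U → U.Nonempty → IsOpen V →
      V.Nonempty → (∀ z : G, z ∈ (Pong U V : Set G) → z • α ∈ D) → Nat.find hex ≤ D.card :=
    fun U V D h1 h2 h3 h4 h5 => Nat.find_min' hex ⟨U, V, D, h1, h2, h3, h4, rfl, h5⟩
  -- elements moving `U` to a set meeting `U` stabilise `D`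
  have hstab : ∀ h : G, (h • U ∩ U).Nonempty → h • D = D := by
    intro h hne
    have h1 : ∀ z : G, z ∈ (Pong (h • U ∩ U) V : Set G) → z • α ∈ D ∩ h • D := by
      intro z hzm
      have hz1 : z • Vᶜ ⊆ h • U ∩ U := hzm
      rw [Finset.mem_inter]
      refine ⟨hz z (hz1.trans inter_subset_right), ?_⟩
      have h2 : (h⁻¹ * z) • α ∈ D := by
        apply hz
        show (h⁻¹ * z) • Vᶜ ⊆ U
        rw [mul_smul, ← Set.subset_smul_set_iff]
        exact hz1.trans inter_subset_left
      rw [mul_smul] at h2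
      rw [Finset.mem_smul_finset]
      exact ⟨_, h2, smul_inv_smul h _⟩
    have h2 := hmin _ _ _ ((hU.smul h).inter hU) hne hV hVn h1
    rw [← hD] at h2
    have h3 : D ∩ h • D = D := Finset.eq_of_subset_of_card_le Finset.inter_subset_left h2
    have h4 : D ⊆ h • D := Finset.inter_eq_left.1 h3
    exact (Finset.eq_of_subset_of_card_le h4 (le_of_eq (Finset.card_smul_finset h D))).symm
  have hall : ∀ h : G, h • D = D := by
    intro h
    obtain ⟨a, ha⟩ := hUn
    obtain ⟨y, hy⟩ := hep {a, h • a} U (Set.toFinite _).isClosed (h3 _ _) hU ⟨a, ha⟩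
    have hya : y • a ∈ U := hy (Set.smul_mem_smul_set (by simp))
    have hyb : y • h • a ∈ U := hy (Set.smul_mem_smul_set (by simp))
    have h1 : y • D = D := hstab y ⟨y • a, Set.smul_mem_smul_set ha, hya⟩
    have h2 : (y * h) • D = D := hstab (y * h) ⟨(y * h) • a, Set.smul_mem_smul_set ha, by
      rwa [mul_smul]⟩
    rw [mul_smul, ← h1, smul_left_cancel_iff] at h2
    rw [h1] at h2
    exact h2
  obtain ⟨z₀, hz₀⟩ := hep Vᶜ U hV.isClosed_compl (by
    intro h
    obtain ⟨v, hv⟩ := hVn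
    have : v ∈ Vᶜ := by rw [h]; trivial
    exact this hv) hU hUn
  have hz₀D : z₀ • α ∈ D := hz z₀ hz₀
  have hfin : ∀ ω : Ω, ω ∈ D := by
    intro ω
    obtain ⟨g, hg⟩ := MulAction.exists_smul_eq G (z₀ • α) ω
    rw [← hg, ← hall g]
    exact Finset.smul_mem_smul_finset hz₀D
  exact (Set.infinite_univ (α := Ω)) (D.finite_toSet.subset fun ω _ => hfin ω)

theorem not_ep (hG : Hyp G) [MulAction.IsPretransitive G Ω] [Infinite Ω]
    (hbt : ∀ K : Subgroup G, K ≠ ⊤ → ∀ x : Ω, (MulAction.orbit K x).Finite)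
    (hep : ∀ A U : Set X, IsClosed A → A ≠ univ → IsOpen U → U.Nonempty → ∃ g : G, g • A ⊆ U)
    (p q r : X) (hpq : p ≠ q) (hqr : q ≠ r) (hpr : p ≠ r) : False := by
  classical
  have h3 : ∀ a b : X, ({a, b} : Set X) ≠ univ := by
    intro a b h
    have h1 : ∀ x : X, x = a ∨ x = b := fun x => by
      have : x ∈ ({a, b} : Set X) := by rw [h]; trivial
      simpa using this
    rcases h1 p with hp | hp <;> rcases h1 q with hq | hq <;> rcases h1 r with hr | hr <;>
      simp_all
  obtain ⟨α⟩ : Nonempty Ω := inferInstance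
  -- `X` is infinite
  have hXinf : Infinite X := by
    by_contra hfin
    rw [not_infinite_iff_finite] at hfin
    obtain ⟨g, hg⟩ := hep {p}ᶜ {p} (Set.toFinite _).isClosed (by
      intro h
      have : p ∈ ({p}ᶜ : Set X) := by rw [h]; trivial
      exact this rfl) (isOpen_discrete _) ⟨p, rfl⟩
    apply h3 p (g⁻¹ • p)
    rw [Set.eq_univ_iff_forall]
    intro y
    by_cases hy : y = p
    · simp [hy]
    · have : g • y ∈ ({p} : Set X) := hg (Set.smul_mem_smul_set hy)
      right
      rw [Set.mem_singleton_iff] at this ⊢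
      rw [← this, inv_smul_smul]
  obtain ⟨W, hWinf, hWo, hWd⟩ := exists_seq_infinite_isOpen_pairwise_disjoint X
  -- choose the players
  obtain ⟨f, hf1, hf2⟩ := exists_seq_of_forall_finset_exists
    (fun x : ℕ × G => x.2 ∈ (Pong (W (2 * x.1)) (W (2 * x.1 + 1)) : Set G))
    (fun x y => x.1 < y.1 ∧ x.2 • α ≠ y.2 • α) (by
      intro s _
      obtain ⟨n, hn⟩ : ∃ n : ℕ, ∀ x ∈ s, x.1 < n := by
        refine ⟨s.sup Prod.fst + 1, fun x hx => Nat.lt_succ_of_le (Finset.le_sup hx (f := Prod.fst))⟩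
      obtain ⟨z, hz1, hz2⟩ := pong_avoid (Ω := Ω) hep h3 α (hWo (2 * n)) (hWinf _).nonempty
        (hWo (2 * n + 1)) (hWinf _).nonempty (s.image fun x => x.2 • α)
      refine ⟨(n, z), hz1, fun x hx => ⟨hn x hx, fun h => hz2 ?_⟩⟩
      rw [Finset.mem_image]
      exact ⟨x, hx, h⟩)
  set z : ULift.{u} ℕ → G := fun k => (f k.down).2 with hz
  have hidx : ∀ m n : ULift.{u} ℕ, m ≠ n → (f m.down).1 ≠ (f n.down).1 := by
    intro m n hmn
    have hmn' : m.down ≠ n.down := fun h => hmn (ULift.down_injective h)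
    rcases lt_or_gt_of_ne hmn' with h | h
    · exact (hf2 _ _ h).1.ne
    · exact (hf2 _ _ h).1.ne'
  have hinj : Injective (FreeGroup.lift z) := by
    apply FreeGroup.injective_lift_of_ping_pong z (fun k => W (2 * (f k.down).1))
      (fun k => W (2 * (f k.down).1 + 1))
    · exact fun k => (hWinf _).nonempty
    · intro m n hmn
      exact hWd (by have := hidx m n hmn; omega)
    · intro m n hmn
      exact hWd (by have := hidx m n hmn; omega)
    · intro m n
      exact hWd (by omega)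
    · exact fun k => hf1 k.down
    · intro k
      have h1 : z k • (W (2 * (f k.down).1 + 1))ᶜ ⊆ W (2 * (f k.down).1) := hf1 k.down
      show (z k)⁻¹ • (W (2 * (f k.down).1))ᶜ ⊆ W (2 * (f k.down).1 + 1)
      have h2 := Set.compl_subset_compl.2 h1
      rw [← Set.smul_set_compl, compl_compl] at h2
      exact Set.subset_smul_set_iff.1 h2
  have hsurj : Surjective (FreeGroup.lift z) := by
    rw [← MonoidHom.range_eq_top]
    by_contra hne
    have h1 := hbt _ hne α
    have h2 : Set.range (fun k : ℕ => (f k).2 • α) ⊆ MulAction.orbit (FreeGroup.lift z).range α := by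
      rintro _ ⟨k, rfl⟩
      exact ⟨⟨z ⟨k⟩, FreeGroup.of ⟨k⟩, by rw [FreeGroup.lift_apply_of]⟩, rfl⟩
    refine (Set.infinite_range_of_injective ?_) (h1.subset h2)
    intro m n hmn
    by_contra hne'
    rcases lt_or_gt_of_ne hne' with h | h
    · exact (hf2 m n h).2 hmn
    · exact (hf2 n m h).2 hmn.symm
  exact hG.not_free ⟨0⟩ z hinj hsurj

end ep

end Run7.h54
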