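import Pool.Agent.Run7.h54.Perp

/-! Commuting locally normal subgroups. -/

open scoped Pointwise commutatorElement

namespace Run7.h54

variable {G : Type*} [Group G]

theorem normalClosure_le_of_conj {y : G} {H : Subgroup G} (h : ∀ g : G, g * y * g⁻¹ ∈ H) :
    Subgroup.normalClosure {y} ≤ H := by
  rw [Subgroup.normalClosure, Subgroup.closure_le]
  intro z hz
  rw [Group.mem_conjugatesOfSet_iff] at hz
  obtain ⟨a, ha, hconj⟩ := hz
  rw [Set.mem_singleton_iff] at ha
  subst ha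
  obtain ⟨c, rfl⟩ := isConj_iff.1 hconj
  exact h c

/-- Closed locally normal subgroups. -/
structure Cl (C : Subgroup G) : Prop where
  big : Big (nz C)
  closed : perp (perp C) = C

theorem Cl.smul {C : Subgroup G} (hC : Cl C) (g : G) : Cl (MulAut.conj g • C) where
  big := big_nz_smul hC.big g
  closed := by rw [← smul_perp, ← smul_perp, hC.closed]

theorem Cl.inf_perp' (hG : Hyp G) {E C : Subgroup G} (hE : Cl E) (hC : Cl C) :
    Cl (E ⊓ perp C) where
  big := big_nz_inf hE.big (big_nz_perp hC.big)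
  closed := by
    apply le_antisymm
    · apply le_inf
      · exact le_trans (perp_anti (perp_anti inf_le_left)) (le_of_eq hE.closed)
      · exact le_trans (perp_anti (perp_anti inf_le_right)) (le_of_eq (perp_perp_perp hG hC.big))
    · exact le_perp_perp hG (big_nz_inf hE.big (big_nz_perp hC.big))

/-- The chain argument. -/
theorem exists_bounded (hG : Hyp G) {H : Subgroup G} (hH : Big H) {E₀ : Subgroup G} (hE₀ : Cl E₀)
    (hne : E₀ ≠ ⊥) {g₀ : G} (hg₀ : MulAut.conj g₀ • E₀ ≤ perp E₀) :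
    ∃ E : Subgroup G, Cl E ∧ E ≠ ⊥ ∧ E ≤ E₀ ∧ ∃ b : ℕ, ∀ C : Subgroup G, Cl C → C ≠ ⊤ →
      E ≤ C ∨ H.relIndex C ≤ b := by
  classical
  by_contra hcon
  push Not at hcon
  let 𝓔 := {E : Subgroup G // Cl E ∧ E ≠ ⊥ ∧ E ≤ E₀}
  have hstep : ∀ (E : 𝓔) (b : ℕ), ∃ (C : Subgroup G) (E' : 𝓔), Cl C ∧ b < H.relIndex C ∧
      E'.1 ≤ E.1 ∧ E'.1 ≤ perp C := by
    intro E b
    obtain ⟨C, hC, hCtop, hEC, hb⟩ := hcon E.1 E.2.1 E.2.2.1 E.2.2.2 b
    have hne' : E.1 ⊓ perp C ≠ ⊥ := by
      intro h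
      apply hEC
      have := le_perp_perp_of_inf hG E.2.1.big hC.big h
      rwa [hC.closed] at this
    exact ⟨C, ⟨E.1 ⊓ perp C, Cl.inf_perp' hG E.2.1 hC, hne', le_trans inf_le_left E.2.2.2⟩,
      hC, hb, inf_le_left, inf_le_right⟩
  choose c e hc hb he1 he2 using hstep
  let E : ℕ → 𝓔 := fun r => Nat.rec ⟨E₀, hE₀, hne, le_rfl⟩ (fun r E => e E r) r
  have hEs : ∀ r, E (r + 1) = e (E r) r := fun r => rfl
  have hanti : Antitone fun r => (E r).1 := by
    apply antitone_nat_of_succ_le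
    intro r
    rw [hEs]
    exact he1 _ _
  let C : ℕ → Subgroup G := fun r => c (E r) r
  have hCle : ∀ r, C r ≤ perp (E (r + 1)).1 := by
    intro r
    have h1 : (E (r + 1)).1 ≤ perp (C r) := by
      rw [hEs]
      exact he2 _ _
    exact le_trans (le_perp_perp hG (hc _ _).big) (perp_anti h1)
  have hK : ⨆ r, C r = ⊤ := by
    by_contra hK
    have h1 := hH _ hK
    have h2 : H.relIndex (C (H.relIndex (⨆ r, C r))) ≤ H.relIndex (⨆ r, C r) :=
      Subgroup.relIndex_le_of_le_right (le_iSup C _) h1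
    exact absurd (hb (E (H.relIndex (⨆ r, C r))) (H.relIndex (⨆ r, C r))) (not_lt.2 h2)
  have hmem : g₀ ∈ ⨆ s, perp (E s).1 := by
    have h1 : ⨆ r, C r ≤ ⨆ s, perp (E s).1 :=
      iSup_le fun r => le_trans (hCle r) (le_iSup (fun s => perp (E s).1) (r + 1))
    apply h1
    rw [hK]
    trivial
  have hdir : Directed (· ≤ ·) fun s => perp (E s).1 := by
    apply Monotone.directed_le
    intro r s hrs
    exact perp_anti (hanti hrs)
  obtain ⟨s, hs⟩ := (Subgroup.mem_iSup_of_directed hdir).1 hmem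
  obtain ⟨J, hJ, hgJ⟩ := hs
  obtain ⟨a, haE, haJ, ha1⟩ := exists_ne_one_inf hG hJ (E s).2.2.1
  apply ha1
  have h1 : g₀ * a * g₀⁻¹ = a := by rw [hgJ a haE haJ]; group
  have h2 : a ∈ perp (E s).1 := by
    have h3 : g₀ * a * g₀⁻¹ ∈ MulAut.conj g₀ • E₀ := conj_mem g₀ ((E s).2.2.2 haE)
    rw [h1] at h3
    exact perp_anti (E s).2.2.2 (hg₀ h3)
  have h4 := inf_perp hG (E s).2.1.big
  rw [← Subgroup.mem_bot, ← h4]
  exact ⟨haE, h2⟩

theorem smul_pow_le {E : Subgroup G} {g : G} (h : E ≤ MulAut.conj g • E) (k : ℕ) :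
    E ≤ MulAut.conj (g ^ k) • E := by
  induction k with
  | zero => simp
  | succ k ih =>
    refine le_trans h ?_
    have := smul_mono g ih
    rwa [smul_smul, ← map_mul, ← pow_succ'] at this

/-- **Main theorem**, abstract form. A nontrivial subgroup normalised by a big subgroup has trivial
centraliser. -/
theorem Hyp.centralizer_eq_bot (hG : Hyp G) {A : Subgroup G} (hA : Big (nz A)) (hne : A ≠ ⊥) :
    Subgroup.centralizer (A : Set G) = ⊥ := by
  classical
  by_contra hC
  -- the normaliser of `A` is proper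
  have hproper : nz A ≠ ⊤ := by
    intro htop
    rcases hG.simple A (Subgroup.normalizer_eq_top_iff.1 htop) with h | h
    · exact hne h
    · apply hC
      rw [h, Subgroup.coe_top, Subgroup.centralizer_univ, hG.center]
  have hperp : perp A ≠ ⊥ := by
    intro h
    apply hC
    rw [eq_bot_iff, ← h]
    intro g hg
    refine ⟨⊤, big_top, fun a ha _ => ?_⟩
    exact (Subgroup.mem_centralizer_iff.1 hg a ha).symm
  -- a conjugate of `A` meets `perp A`
  obtain ⟨g, hg⟩ : ∃ g : G, MulAut.conj g • A ⊓ perp A ≠ ⊥ := by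
    by_contra hcon
    push Not at hcon
    obtain ⟨a, ha⟩ := Subgroup.ne_bot_iff_exists_ne_one.1 hne
    have h1 : Subgroup.normalClosure {(a : G)} ≤ perp (perp A) := by
      apply normalClosure_le_of_conj
      intro g
      exact le_perp_perp_of_inf hG (big_nz_smul hA g) hA (hcon g) (conj_mem g a.2)
    rw [hG.normalClosure (fun h => ha (Subtype.ext h)), top_le_iff] at h1
    exact perp_ne_top hG (big_nz_perp hA) hperp h1
  set X := MulAut.conj g • A ⊓ perp A with hX
  have hXbig : Big (nz X) := big_nz_inf (big_nz_smul hA g) (big_nz_perp hA)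
  set E₀ := perp (perp X) with hE₀def
  have hE₀ : Cl E₀ := ⟨big_nz_perp (big_nz_perp hXbig), perp_perp_perp hG (big_nz_perp hXbig)⟩
  have hE₀ne : E₀ ≠ ⊥ := by
    intro h
    apply hg
    rw [eq_bot_iff, ← h]
    exact le_perp_perp hG hXbig
  obtain ⟨g₀, hg₀⟩ : ∃ g₀ : G, MulAut.conj g₀ • E₀ ≤ perp E₀ := by
    refine ⟨g⁻¹, ?_⟩
    rw [hE₀def, smul_perp, smul_perp]
    apply perp_anti
    apply perp_anti
    have h1 : MulAut.conj g⁻¹ • X ≤ A := by
      rw [smul_le_iff, inv_inv]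
      exact inf_le_left
    refine le_trans h1 (le_trans (le_perp_perp hG hA) ?_)
    exact perp_anti inf_le_right
  obtain ⟨E, hE, hEne, hEE₀, b, hb⟩ := exists_bounded hG hA hE₀ hE₀ne hg₀
  -- the disjoint conjugate
  have hF : MulAut.conj g₀ • E ≤ perp E :=
    le_trans (smul_mono g₀ hEE₀) (le_trans hg₀ (perp_anti hEE₀))
  have hEtop : E ≠ ⊤ := by
    intro h
    have h1 := inf_perp hG hE.big
    rw [h, top_inf_eq] at h1
    rw [h, h1] at hF
    have hx : ∀ x : G, x = 1 := by
      intro x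
      have h2 := hF (conj_mem g₀ (Subgroup.mem_top x))
      rw [Subgroup.mem_bot, conj_eq_one_iff] at h2
      exact h2
    obtain ⟨x, y, hxy⟩ := hG.nonab
    exact hxy (by rw [hx x, hx y])
  obtain ⟨m, hm0, hm⟩ := hA.exists_uniform_pow (smul_ne_top hproper g₀)
  obtain ⟨w, hw1, hw2⟩ : ∃ w : G, E ≤ MulAut.conj w • E ∧ MulAut.conj g₀ • E ≤ MulAut.conj w • E := by
    by_contra hcon
    push Not at hcon
    have hpow : ∀ w : G, ∀ z ∈ MulAut.conj w • E, z ^ (b.factorial * m) ∈ nz A := by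
      intro w z hz
      have hbound : ∀ C : Subgroup G, Cl C → C ≠ ⊤ → ¬ E ≤ C → ∀ z ∈ C, z ^ b.factorial ∈ nz A := by
        intro C hC hCtop hEC z hz
        have h1 := (hb C hC hCtop).resolve_left hEC
        exact (Subgroup.pow_mem_of_relIndex_ne_zero_of_dvd (hA C hCtop) hz
          (fun k h2 h3 => Nat.dvd_factorial h2 (le_trans h3 h1))).1
      by_cases hw : E ≤ MulAut.conj w • E
      · have h1 : ¬ E ≤ MulAut.conj g₀⁻¹ • MulAut.conj w • E := by
          intro h
          exact hcon w hw ((smul_le_iff g₀ _ _).2 h)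
        have h2 := hbound _ ((hE.smul w).smul g₀⁻¹) (smul_ne_top (smul_ne_top hEtop w) _) h1
          (g₀⁻¹ * z * g₀⁻¹⁻¹) (conj_mem _ hz)
        rw [conj_pow, inv_inv] at h2
        have h3 : z ^ b.factorial ∈ MulAut.conj g₀ • nz A := mem_conj.2 h2
        rw [pow_mul]
        exact hm _ h3
      · rw [pow_mul]
        exact pow_mem (hbound _ (hE.smul w) (smul_ne_top hEtop w) hw z hz) m
    obtain ⟨e, he⟩ := Subgroup.ne_bot_iff_exists_ne_one.1 hEne
    have hpos : 0 < b.factorial * m := Nat.mul_pos (Nat.factorial_pos _) hm0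
    have h1 : Subgroup.normalClosure {(e : G) ^ (b.factorial * m)} ≤ nz A := by
      apply normalClosure_le_of_conj
      intro w
      rw [← conj_pow]
      exact hpow w _ (conj_mem w e.2)
    rw [hG.normalClosure (fun h => he (Subtype.ext (hG.tf _ _ hpos h))), top_le_iff] at h1
    exact hproper h1
  obtain ⟨k, hk, hwk⟩ := hE.big.exists_pow hG w
  have h1 : MulAut.conj w • E = E := by
    apply le_antisymm _ hw1
    obtain ⟨j, rfl⟩ := Nat.exists_eq_succ_of_ne_zero hk.ne'
    have h2 := smul_mono w (smul_pow_le hw1 j)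
    rw [smul_smul, ← map_mul, ← pow_succ', mem_nz.1 hwk] at h2
    exact h2
  rw [h1] at hw2
  have h2 : MulAut.conj g₀ • E ≤ ⊥ := by
    rw [← inf_perp hG hE.big]
    exact le_inf hw2 hF
  apply hEne
  rw [smul_le_iff, Subgroup.smul_bot] at h2
  exact le_bot_iff.1 h2

end Run7.h54
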