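import Pool.Agent.Run7.h54.Pmp

/-! Minimal actions of torsion-free barely transitive groups on compact spaces. -/

open scoped Pointwise Topology
open Filter

namespace Run7.h54

variable {G : Type*} [Group G]

theorem minimal_top_free (hG : Hyp G) {H : Subgroup G} (hH : Big H) (hne : H ≠ ⊤)
    {X : Type*} [TopologicalSpace X] [CompactSpace X] [T2Space X] [MulAction G X]
    [ContinuousConstSMul G X] [MulAction.IsMinimal G X] [Nontrivial X] {g : G} (hg : g ≠ 1) :
    interior {x : X | g • x = x} = ∅ := by
  classical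
  by_contra hcon
  obtain ⟨x, hx⟩ := Set.nonempty_iff_ne_empty.2 hcon
  set F : G → Set X := fun z => interior {y : X | z • y = y} with hF
  -- points whose germ stabiliser has bounded powers in `H`
  set T : ℕ → Set X := fun b => {y | ∀ z : G, y ∈ F z → z ^ b.factorial ∈ H} with hT
  have hTclosed : ∀ b, IsClosed (T b) := by
    intro b
    have h1 : T b = (⋃ z : {z : G // z ^ b.factorial ∉ H}, F z)ᶜ := by
      ext y
      simp only [hT, Set.mem_compl_iff, Set.mem_iUnion, not_exists, Subtype.forall]
      constructor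
      · intro h z hz hy
        exact hz (h z hy)
      · intro h z hy
        by_contra hz
        exact h z hz hy
    rw [h1]
    exact (isOpen_iUnion fun z => isOpen_interior).isClosed_compl
  have hTunion : ⋃ b, T b = Set.univ := by
    rw [Set.eq_univ_iff_forall]
    intro y
    have hstab : MulAction.stabilizer G y ≠ ⊤ := by
      intro h
      have h1 : MulAction.orbit G y = {y} := by
        ext w
        constructor
        · rintro ⟨k, rfl⟩
          have : k ∈ MulAction.stabilizer G y := by rw [h]; trivial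
          exact this
        · rintro rfl
          exact MulAction.mem_orbit_self w
      have h2 := MulAction.dense_orbit G y
      rw [h1] at h2
      have h3 : ({y} : Set X) = Set.univ := by
        rw [← (isClosed_singleton (x := y)).closure_eq]
        exact h2.closure_eq
      obtain ⟨w, hw⟩ := exists_ne y
      have : w ∈ ({y} : Set X) := by rw [h3]; trivial
      exact hw this
    rw [Set.mem_iUnion]
    refine ⟨H.relIndex (MulAction.stabilizer G y), fun z hz => ?_⟩
    have hz1 : y ∈ {y : X | z • y = y} := interior_subset hz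
    exact (Subgroup.pow_mem_of_relIndex_ne_zero_of_dvd (hH _ hstab)
      (show z ∈ MulAction.stabilizer G y from hz1) (fun m h2 h3 => Nat.dvd_factorial h2 h3)).1
  obtain ⟨b, hb⟩ := nonempty_interior_of_iUnion_of_closed hTclosed hTunion
  obtain ⟨I, hI⟩ := isCompact_univ.exists_finite_cover_smul G isOpen_interior hb
  -- a uniform exponent
  have hexp : ∀ h : G, ∃ n : ℕ, 0 < n ∧ ∀ a ∈ MulAut.conj h • H, a ^ n ∈ H := fun h =>
    hH.exists_uniform_pow (smul_ne_top hne h)
  choose n hn0 hn using hexp
  set c := ∏ h ∈ I, n h with hc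
  have hc0 : 0 < c := Finset.prod_pos fun h _ => hn0 h
  apply hg
  apply hG.eq_one_of_conj_pow hne (Nat.mul_pos (Nat.factorial_pos b) hc0)
  intro v
  have hv : v • x ∈ ⋃ h ∈ I, h • interior (T b) := hI trivial
  rw [Set.mem_iUnion₂] at hv
  obtain ⟨h, hhI, w, hw, hwx⟩ := hv
  -- `w = h⁻¹ v x`
  have hw' : w = (h⁻¹ * v) • x := by
    rw [mul_smul, ← hwx, inv_smul_smul]
  have h1 : w ∈ F ((h⁻¹ * v) * g * (h⁻¹ * v)⁻¹) := by
    rw [hw', hF]
    have h2 : (h⁻¹ * v) • interior {y : X | g • y = y} ⊆
        {y : X | ((h⁻¹ * v) * g * (h⁻¹ * v)⁻¹) • y = y} := by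
      rintro _ ⟨y, hy, rfl⟩
      have hy0 : y ∈ {y : X | g • y = y} := interior_subset hy
      have hy1 : g • y = y := hy0
      show ((h⁻¹ * v) * g * (h⁻¹ * v)⁻¹) • (h⁻¹ * v) • y = (h⁻¹ * v) • y
      rw [smul_smul, inv_mul_cancel_right, mul_smul, hy1]
    exact interior_maximal h2 (isOpen_interior.smul _) (Set.smul_mem_smul_set hx)
  have h3 := interior_subset hw _ h1
  rw [conj_pow] at h3
  have h4 : v * g ^ b.factorial * v⁻¹ ∈ MulAut.conj h • H := by
    rw [mem_conj]
    convert h3 using 1
    group
  have h5 := hn h _ h4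
  obtain ⟨d, hd⟩ := Finset.dvd_prod_of_mem n hhI
  have h6 : v * g ^ (b.factorial * c) * v⁻¹ = ((v * g ^ b.factorial * v⁻¹) ^ n h) ^ d := by
    rw [← pow_mul, ← hd, ← hc, conj_pow, ← pow_mul]
  rw [h6]
  exact pow_mem h5 d

end Run7.h54
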