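import Pool.Agent.Run7.h54.Abelian

/-! Germs of centralisers of locally normal subgroups. -/

open scoped Pointwise commutatorElement

namespace Run7.h54

variable {G : Type*} [Group G]

/-- The normaliser. -/
abbrev nz (A : Subgroup G) : Subgroup G := Subgroup.normalizer (A : Set G)

theorem mem_nz {A : Subgroup G} {g : G} : g ∈ nz A ↔ MulAut.conj g • A = A :=
  Subgroup.mem_normalizer_iff_map_conj_eq

theorem conj_mem_of_nz {A : Subgroup G} {g a : G} (h : g ∈ nz A) (ha : a ∈ A) :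
    g * a * g⁻¹ ∈ A := by
  have h1 := conj_mem g ha
  rwa [mem_nz.1 h] at h1

theorem le_nz (A : Subgroup G) : A ≤ nz A := Subgroup.le_normalizer

theorem nz_inf_le (A B : Subgroup G) : nz A ⊓ nz B ≤ nz (A ⊓ B) := by
  intro g hg
  rw [mem_nz, Subgroup.smul_inf, mem_nz.1 hg.1, mem_nz.1 hg.2]

theorem big_nz_inf {A B : Subgroup G} (hA : Big (nz A)) (hB : Big (nz B)) : Big (nz (A ⊓ B)) :=
  (hA.inf hB).mono (nz_inf_le A B)

theorem nz_smul (g : G) (A : Subgroup G) : nz (MulAut.conj g • A) = MulAut.conj g • nz A := by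
  ext x
  rw [mem_conj, mem_nz, mem_nz]
  rw [smul_smul, ← map_mul]
  constructor
  · intro h
    have h2 := congrArg (fun B => MulAut.conj g⁻¹ • B) h
    simp only [smul_smul, ← map_mul] at h2
    rw [inv_mul_cancel, map_one, one_smul, ← mul_assoc] at h2
    exact h2
  · intro h
    have h2 := congrArg (fun B => MulAut.conj g • B) h
    simp only [smul_smul, ← map_mul] at h2
    rw [← h2]
    congr 2
    group

theorem big_nz_smul {A : Subgroup G} (hA : Big (nz A)) (g : G) :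
    Big (nz (MulAut.conj g • A)) := by
  rw [nz_smul]
  exact hA.smul g

/-- The germ centraliser of `A`. -/
def perp (A : Subgroup G) : Subgroup G where
  carrier := {g | ∃ J : Subgroup G, Big J ∧ ∀ a ∈ A, a ∈ J → g * a = a * g}
  one_mem' := ⟨⊤, big_top, fun a _ _ => by simp⟩
  mul_mem' := by
    rintro g h ⟨J, hJ, hg⟩ ⟨K, hK, hh⟩
    refine ⟨J ⊓ K, hJ.inf hK, fun a ha haJ => ?_⟩
    rw [mul_assoc, hh a ha haJ.2, ← mul_assoc, hg a ha haJ.1, mul_assoc]
  inv_mem' := by
    rintro g ⟨J, hJ, hg⟩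
    refine ⟨J, hJ, fun a ha haJ => ?_⟩
    have h1 := hg a ha haJ
    calc g⁻¹ * a = g⁻¹ * (a * g) * g⁻¹ := by group
      _ = g⁻¹ * (g * a) * g⁻¹ := by rw [h1]
      _ = a * g⁻¹ := by group

theorem mem_perp {A : Subgroup G} {g : G} :
    g ∈ perp A ↔ ∃ J : Subgroup G, Big J ∧ ∀ a ∈ A, a ∈ J → g * a = a * g := Iff.rfl

theorem perp_anti {A B : Subgroup G} (h : A ≤ B) : perp B ≤ perp A := by
  rintro g ⟨J, hJ, hg⟩
  exact ⟨J, hJ, fun a ha haJ => hg a (h ha) haJ⟩

theorem smul_perp_le (g : G) (A : Subgroup G) :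
    MulAut.conj g • perp A ≤ perp (MulAut.conj g • A) := by
  intro x hx
  rw [mem_conj] at hx
  obtain ⟨J, hJ, h⟩ := hx
  refine ⟨MulAut.conj g • J, hJ.smul g, fun a ha haJ => ?_⟩
  rw [mem_conj] at ha haJ
  have h1 := h _ ha haJ
  calc x * a = g * ((g⁻¹ * x * g) * (g⁻¹ * a * g)) * g⁻¹ := by group
    _ = g * ((g⁻¹ * a * g) * (g⁻¹ * x * g)) * g⁻¹ := by rw [h1]
    _ = a * x := by group

theorem smul_le_iff (g : G) (A B : Subgroup G) :
    MulAut.conj g • A ≤ B ↔ A ≤ MulAut.conj g⁻¹ • B := by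
  rw [map_inv]
  exact Subgroup.pointwise_smul_subset_iff

theorem smul_mono (g : G) {A B : Subgroup G} (h : A ≤ B) : MulAut.conj g • A ≤ MulAut.conj g • B :=
  Subgroup.pointwise_smul_le_pointwise_smul_iff.2 h

theorem smul_inv_smul' (g : G) (A : Subgroup G) : MulAut.conj g • MulAut.conj g⁻¹ • A = A := by
  rw [smul_smul, ← map_mul, mul_inv_cancel, map_one, one_smul]

theorem inv_smul_smul' (g : G) (A : Subgroup G) : MulAut.conj g⁻¹ • MulAut.conj g • A = A := by
  rw [smul_smul, ← map_mul, inv_mul_cancel, map_one, one_smul]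

theorem smul_perp (g : G) (A : Subgroup G) :
    MulAut.conj g • perp A = perp (MulAut.conj g • A) := by
  apply le_antisymm (smul_perp_le g A)
  have h1 := smul_perp_le g⁻¹ (MulAut.conj g • A)
  rw [inv_smul_smul'] at h1
  have h2 := smul_mono g h1
  rwa [smul_inv_smul'] at h2

theorem nz_le_nz_perp (A : Subgroup G) : nz A ≤ nz (perp A) := by
  intro g hg
  rw [mem_nz, smul_perp, mem_nz.1 hg]

theorem big_nz_perp {A : Subgroup G} (hA : Big (nz A)) : Big (nz (perp A)) :=
  hA.mono (nz_le_nz_perp A)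

theorem perp_inf_big {A J : Subgroup G} (hJ : Big J) : perp (A ⊓ J) = perp A := by
  apply le_antisymm
  · rintro g ⟨K, hK, hg⟩
    exact ⟨J ⊓ K, hJ.inf hK, fun a ha haJ => hg a ⟨ha, haJ.1⟩ haJ.2⟩
  · exact perp_anti inf_le_left

theorem exists_ne_one_inf (hG : Hyp G) {A J : Subgroup G} (hJ : Big J) (hA : A ≠ ⊥) :
    ∃ a ∈ A, a ∈ J ∧ a ≠ 1 := by
  obtain ⟨a, ha⟩ := Subgroup.ne_bot_iff_exists_ne_one.1 hA
  obtain ⟨k, hk, hak⟩ := hJ.exists_pow hG (a : G)
  exact ⟨(a : G) ^ k, pow_mem a.2 k, hak, fun h => ha (Subtype.ext (hG.tf _ k hk h))⟩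

/-- A locally normal subgroup meets its germ centraliser trivially. -/
theorem inf_perp (hG : Hyp G) {A : Subgroup G} (hA : Big (nz A)) : A ⊓ perp A = ⊥ := by
  by_cases htop : A = ⊤
  · subst htop
    rw [eq_bot_iff]
    rintro g ⟨_, J, hJ, hg⟩
    exact Subgroup.mem_bot.2 (hG.centralizer_big hJ fun j hj => hg j trivial hj)
  · apply hG.abelian_trivial (N := nz (A ⊓ perp A))
    · intro a ha b hb
      obtain ⟨Ja, hJa, hga⟩ := ha.2
      obtain ⟨Jb, hJb, hgb⟩ := hb.2
      have hle : Subgroup.closure {a, b} ≤ A := by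
        rw [Subgroup.closure_le]
        rintro x (rfl | rfl)
        · exact ha.1
        · exact hb.1
      have hne : Subgroup.closure {a, b} ≠ ⊤ := fun h => htop (top_le_iff.1 (h ▸ hle))
      apply hG.comm_of_relIndex (J := Ja ⊓ Jb) ((hJa.inf hJb) _ hne)
      intro r hr hrJ
      exact ⟨hga r (hle hr) hrJ.1, hgb r (hle hr) hrJ.2⟩
    · exact big_nz_inf hA (big_nz_perp hA)
    · intro x hx a ha
      exact conj_mem_of_nz hx ha

/-- If `E` and `F` are disjoint, elements of `E` normalising `F` and elements of `F` normalising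
`E` commute. -/
theorem commute_of_inf_bot {E F : Subgroup G} (h : E ⊓ F = ⊥) {e f : G} (he : e ∈ E) (hf : f ∈ F)
    (heF : e ∈ nz F) (hfE : f ∈ nz E) : e * f = f * e := by
  rw [← commutatorElement_eq_one_iff_mul_comm, ← Subgroup.mem_bot, ← h]
  constructor
  · have h1 := mul_mem he (conj_mem_of_nz hfE (inv_mem he))
    have h2 : e * (f * e⁻¹ * f⁻¹) = ⁅e, f⁆ := by rw [commutatorElement_def]; group
    rwa [h2] at h1
  · show ⁅e, f⁆ ∈ F
    exact mul_mem (conj_mem_of_nz heF hf) (inv_mem hf)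

theorem le_perp_perp (hG : Hyp G) {A : Subgroup G} (hA : Big (nz A)) : A ≤ perp (perp A) := by
  intro a ha
  refine ⟨nz A, hA, fun h hh hhN => ?_⟩
  exact commute_of_inf_bot (inf_perp hG hA) ha hh (nz_le_nz_perp A (le_nz A ha)) hhN

theorem perp_perp_perp (hG : Hyp G) {A : Subgroup G} (hA : Big (nz A)) :
    perp (perp (perp A)) = perp A :=
  le_antisymm (perp_anti (le_perp_perp hG hA)) (le_perp_perp hG (big_nz_perp hA))

theorem le_perp_perp_of_inf (hG : Hyp G) {E C : Subgroup G} (hE : Big (nz E)) (hC : Big (nz C))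
    (h : E ⊓ perp C = ⊥) : E ≤ perp (perp C) := by
  have h1 : E ⊓ nz C ≤ perp (perp C) := by
    rintro e ⟨he, heC⟩
    refine ⟨nz E, hE, fun f hf hfN => ?_⟩
    exact commute_of_inf_bot h he hf (nz_le_nz_perp C heC) hfN
  have h2 := perp_anti h1
  rw [perp_perp_perp hG hC, perp_inf_big hC] at h2
  exact le_trans (le_perp_perp hG hE) (perp_anti h2)

theorem perp_ne_top (hG : Hyp G) {A : Subgroup G} (hA : Big (nz A)) (hne : A ≠ ⊥) :
    perp A ≠ ⊤ := by
  intro h
  have := inf_perp hG hA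
  rw [h, inf_top_eq] at this
  exact hne this

end Run7.h54
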