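import Pool.Agent.Run7.h54.Main
import Pool.Agent.Run7.h54.Action

/-! Measure preserving actions of torsion-free barely transitive groups. -/

open scoped Pointwise
open MeasureTheory Filter Topology

namespace Run7.h54

variable {G : Type*} [Group G]

theorem Hyp.eq_one_of_conj_pow (hG : Hyp G) {H : Subgroup G} (hH : H ≠ ⊤) {y : G} {n : ℕ}
    (hn : 0 < n) (h : ∀ g : G, g * y ^ n * g⁻¹ ∈ H) : y = 1 := by
  by_contra hy
  have h1 : y ^ n ≠ 1 := fun h2 => hy (hG.tf y n hn h2)
  apply hH
  rw [eq_top_iff, ← hG.normalClosure h1]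
  exact normalClosure_le_of_conj h

theorem pmp_free (hG : Hyp G) [Countable G] {H : Subgroup G} (hH : Big H) (hne : H ≠ ⊤)
    {X : Type*} [MeasurableSpace X] [MulAction G X] (μ : Measure X) [IsFiniteMeasure μ]
    [SMulInvariantMeasure G X μ] (hfix : ∀ g : G, MeasurableSet {x : X | g • x = x}) :
    ∀ᵐ x ∂μ, (∀ g : G, g • x = x) ∨ (∀ g : G, g • x = x → g = 1) := by
  classical
  set N : Set X := {x | ∀ g : G, g • x = x} with hN
  have hNmeas : MeasurableSet N := by
    have : N = ⋂ g : G, {x : X | g • x = x} := by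
      ext x
      simp [hN]
    rw [this]
    exact MeasurableSet.iInter hfix
  -- reduction to a single element
  suffices key : ∀ y : G, y ≠ 1 → μ ({x : X | y • x = x} \ N) = 0 by
    have h1 : ∀ᵐ x ∂μ, ∀ y : G, y ≠ 1 → x ∉ {x : X | y • x = x} \ N := by
      rw [ae_all_iff]
      intro y
      by_cases hy : y = 1
      · exact Eventually.of_forall fun x h => absurd hy h
      · filter_upwards [measure_eq_zero_iff_ae_notMem.1 (key y hy)] with x hx _ using hx
    filter_upwards [h1] with x hx
    by_cases hxN : x ∈ N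
    · exact Or.inl hxN
    · right
      intro g hg
      by_contra hg1
      exact hx g hg1 ⟨hg, hxN⟩
  intro y hy
  by_contra hpos
  set T : ℕ → Set X := fun b => {x | ∀ z : G, z • x = x → z ^ b.factorial ∈ H} with hT
  have hTmeas : ∀ b, MeasurableSet (T b) := by
    intro b
    have : T b = ⋂ z : G, (if z ^ b.factorial ∈ H then Set.univ else {x : X | z • x = x}ᶜ) := by
      ext x
      simp only [hT, Set.mem_setOf_eq, Set.mem_iInter]
      refine forall_congr' fun z => ?_
      by_cases hz : z ^ b.factorial ∈ H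
      · simp [hz]
      · simp [hz]
    rw [this]
    refine MeasurableSet.iInter fun z => ?_
    by_cases hz : z ^ b.factorial ∈ H
    · simp [hz]
    · simp only [hz, if_false]
      exact (hfix z).compl
  have hTmono : Monotone T := by
    intro b c hbc x hx z hz
    obtain ⟨k, hk⟩ := Nat.factorial_dvd_factorial hbc
    rw [hk, pow_mul]
    exact pow_mem (hx z hz) k
  set B : ℕ → Set X := fun b => Nᶜ ∩ (T b)ᶜ with hB
  have hBanti : Antitone B := fun b c hbc =>
    Set.inter_subset_inter_right _ (Set.compl_subset_compl.2 (hTmono hbc))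
  have hBempty : ⋂ b, B b = ∅ := by
    rw [Set.eq_empty_iff_forall_notMem]
    intro x hx
    rw [Set.mem_iInter] at hx
    have hxN : x ∉ N := (hx 0).1
    have hstab : MulAction.stabilizer G x ≠ ⊤ := by
      intro h
      apply hxN
      intro g
      have : g ∈ MulAction.stabilizer G x := by rw [h]; trivial
      exact this
    apply (hx (H.relIndex (MulAction.stabilizer G x))).2
    intro z hz
    exact (Subgroup.pow_mem_of_relIndex_ne_zero_of_dvd (hH _ hstab)
      (show z ∈ MulAction.stabilizer G x from hz) (fun m h2 h3 => Nat.dvd_factorial h2 h3)).1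
  have hlim : Tendsto (fun b => μ (B b)) atTop (𝓝 0) := by
    have h1 := tendsto_measure_iInter_atTop (μ := μ) (s := B)
      (fun b => (hNmeas.compl.inter (hTmeas b).compl).nullMeasurableSet) hBanti
      ⟨0, measure_ne_top _ _⟩
    rwa [hBempty, measure_empty] at h1
  obtain ⟨b, hb⟩ : ∃ b, μ (B b) < μ ({x : X | y • x = x} \ N) :=
    (hlim.eventually (gt_mem_nhds (pos_iff_ne_zero.2 hpos))).exists
  apply hy
  apply hG.eq_one_of_conj_pow hne (Nat.factorial_pos b)
  intro g
  rw [← conj_pow]
  by_contra hcon
  have hsub : {x : X | y • x = x} \ N ⊆ (fun x => g • x) ⁻¹' B b := by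
    rintro x ⟨hx, hxN⟩
    refine ⟨fun hgx => hxN ?_, fun hgx => hcon ?_⟩
    · intro h
      have h1 := hgx (g * h * g⁻¹)
      rw [smul_smul, inv_mul_cancel_right, mul_smul] at h1
      exact smul_left_cancel g h1
    · apply hgx
      rw [smul_smul, inv_mul_cancel_right, mul_smul]
      congr 1
  have h1 := measure_mono (μ := μ) hsub
  rw [measure_preimage_smul] at h1
  exact absurd hb (not_lt.2 h1)

/-- A torsion-free barely transitive group is countable. -/
theorem countable_of_bt {Ω : Type*} [MulAction G Ω] [MulAction.IsPretransitive G Ω] [Infinite Ω]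
    (hbt : ∀ K : Subgroup G, K ≠ ⊤ → ∀ x : Ω, (MulAction.orbit K x).Finite) : Countable G := by
  obtain ⟨x₀⟩ : Nonempty Ω := inferInstance
  let e := Infinite.natEmbedding Ω
  have h1 : ∀ n, ∃ g : G, g • x₀ = e n := fun n => MulAction.exists_smul_eq G x₀ (e n)
  choose g hg using h1
  let f : FreeGroup ℕ →* G := FreeGroup.lift g
  have htop : f.range = ⊤ := by
    by_contra h
    have h2 := hbt _ h x₀
    have h3 : Set.range e ⊆ MulAction.orbit f.range x₀ := by
      rintro _ ⟨n, rfl⟩
      exact ⟨⟨g n, FreeGroup.of n, by simp [f]⟩, hg n⟩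
    exact (Set.infinite_range_of_injective e.injective) (h2.subset h3)
  have hsurj : Function.Surjective f := MonoidHom.range_eq_top.1 htop
  exact hsurj.countable

theorem stabilizer_ne_top {Ω : Type*} [MulAction G Ω] [MulAction.IsPretransitive G Ω]
    [Infinite Ω] (α : Ω) : MulAction.stabilizer G α ≠ ⊤ := by
  intro h
  obtain ⟨x, hx⟩ := exists_ne α
  obtain ⟨g, hg⟩ := MulAction.exists_smul_eq G α x
  have : g ∈ MulAction.stabilizer G α := by rw [h]; trivial
  exact hx (by rw [← hg]; exact this)

end Run7.h54
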