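import Pool.Agent.Run7.h54.Basic

/-! Torsion-free groups with a centre of finite index are commutative. -/

open scoped Pointwise commutatorElement

namespace Run7.h54

theorem comm_of_center_index {R : Type*} [Group R]
    (tf : ∀ (g : R) (n : ℕ), 0 < n → g ^ n = 1 → g = 1)
    (hZ : (Subgroup.center R).index ≠ 0) (a b : R) : a * b = b * a := by
  have : (Subgroup.center R).FiniteIndex := ⟨hZ⟩
  have h : MonoidHom.transferCenterPow R ⁅a, b⁆ = 1 := by
    rw [map_commutatorElement, commutatorElement_eq_one_iff_mul_comm]
    apply Subtype.ext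
    exact (Subgroup.mem_center_iff.1 (MonoidHom.transferCenterPow R b).2 _)
  have h2 : ⁅a, b⁆ ^ (Subgroup.center R).index = 1 := by
    have h3 := congrArg Subtype.val h
    rw [MonoidHom.transferCenterPow_apply] at h3
    exact h3
  have := tf _ _ (Nat.pos_of_ne_zero hZ) h2
  exact commutatorElement_eq_one_iff_mul_comm.1 this

variable {G : Type*} [Group G]

/-- If `a`, `b` both commute with a finite-index subgroup of the group they generate, they
commute. -/
theorem Hyp.comm_of_relIndex (hG : Hyp G) {J : Subgroup G} {a b : G}
    (hJ : J.relIndex (Subgroup.closure {a, b}) ≠ 0)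
    (h : ∀ r ∈ Subgroup.closure {a, b}, r ∈ J → a * r = r * a ∧ b * r = r * b) :
    a * b = b * a := by
  set R := Subgroup.closure {a, b} with hR
  have ha : a ∈ R := Subgroup.subset_closure (by simp)
  have hb : b ∈ R := Subgroup.subset_closure (by simp)
  have hle : J.subgroupOf R ≤ Subgroup.center R := by
    intro r hr
    rw [Subgroup.mem_center_iff]
    have hrJ : (r : G) ∈ J := hr
    have h1 := h r r.2 hrJ
    have h2 : Subgroup.closure {a, b} ≤ Subgroup.centralizer {(r : G)} := by
      rw [Subgroup.closure_le]
      intro x hx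
      rcases hx with rfl | rfl
      · exact Subgroup.mem_centralizer_singleton_iff.2 h1.1
      · exact Subgroup.mem_centralizer_singleton_iff.2 h1.2
    intro x
    apply Subtype.ext
    exact Subgroup.mem_centralizer_singleton_iff.1 (h2 x.2)
  have hZ : (Subgroup.center R).index ≠ 0 := by
    intro h0
    apply hJ
    have := Subgroup.index_dvd_of_le hle
    rw [h0] at this
    exact Nat.eq_zero_of_zero_dvd this
  have := comm_of_center_index (R := R) (fun g n hn hgn => by
    apply Subtype.ext
    exact hG.tf g n hn (by simpa using congrArg Subtype.val hgn)) hZ ⟨a, ha⟩ ⟨b, hb⟩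
  simpa using congrArg Subtype.val this

/-- A big subgroup has trivial centraliser. -/
theorem Hyp.centralizer_big (hG : Hyp G) {J : Subgroup G} (hJ : Big J) {z : G}
    (hz : ∀ j ∈ J, z * j = j * z) : z = 1 := by
  by_contra hz1
  -- every conjugate of `z` commutes with `z`
  have key : ∀ g : G, z * (g * z * g⁻¹) = (g * z * g⁻¹) * z := by
    intro g
    by_cases htop : Subgroup.closure {z, g * z * g⁻¹} = ⊤
    · -- then `J ⊓ gJg⁻¹` is central, hence trivial, which is absurd
      exfalso
      have hb := hJ.inf (hJ.smul g)
      obtain ⟨k, hk, hzk⟩ := hb.exists_pow hG z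
      have hc : z ^ k ∈ Subgroup.center G := by
        rw [Subgroup.mem_center_iff]
        intro x
        have hx : x ∈ Subgroup.closure {z, g * z * g⁻¹} := by rw [htop]; trivial
        have hle : Subgroup.closure {z, g * z * g⁻¹} ≤ Subgroup.centralizer {z ^ k} := by
          rw [Subgroup.closure_le]
          intro y hy
          rcases hy with rfl | rfl
          · exact Subgroup.mem_centralizer_singleton_iff.2 (hz _ hzk.1)
          · apply Subgroup.mem_centralizer_singleton_iff.2
            have h2 : g⁻¹ * z ^ k * g ∈ J := by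
              exact mem_conj.1 hzk.2
            have h3 := hz _ h2
            calc g * z * g⁻¹ * z ^ k = g * (z * (g⁻¹ * z ^ k * g)) * g⁻¹ := by group
              _ = g * ((g⁻¹ * z ^ k * g) * z) * g⁻¹ := by rw [h3]
              _ = z ^ k * (g * z * g⁻¹) := by group
        exact Subgroup.mem_centralizer_singleton_iff.1 (hle hx)
      rw [hG.center] at hc
      exact hz1 (hG.tf z k hk (by simpa using hc))
    · apply hG.comm_of_relIndex (J := J ⊓ MulAut.conj g • J) ((hJ.inf (hJ.smul g)) _ htop)
      intro r _ hrJ
      refine ⟨hz _ hrJ.1, ?_⟩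
      have h2 : g⁻¹ * r * g ∈ J := by
        exact mem_conj.1 hrJ.2
      have h3 := hz _ h2
      calc g * z * g⁻¹ * r = g * (z * (g⁻¹ * r * g)) * g⁻¹ := by group
        _ = g * ((g⁻¹ * r * g) * z) * g⁻¹ := by rw [h3]
        _ = r * (g * z * g⁻¹) := by group
  -- so the normal closure of `z` centralises `z`
  have hle : Subgroup.normalClosure {z} ≤ Subgroup.centralizer {z} := by
    rw [Subgroup.normalClosure, Subgroup.closure_le]
    intro y hy
    rw [Group.mem_conjugatesOfSet_iff] at hy
    obtain ⟨a, ha, hconj⟩ := hy
    rw [Set.mem_singleton_iff] at ha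
    subst ha
    obtain ⟨c, rfl⟩ := isConj_iff.1 hconj
    exact Subgroup.mem_centralizer_singleton_iff.2 (key c).symm
  rw [hG.normalClosure hz1] at hle
  have hc : z ∈ Subgroup.center G := by
    rw [Subgroup.mem_center_iff]
    intro x
    exact Subgroup.mem_centralizer_singleton_iff.1 (hle trivial)
  rw [hG.center] at hc
  exact hz1 (by simpa using hc)

end Run7.h54
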